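import Pool.Agent.HypC.Generic

/-!
The iterated cones over complete bipartite graphs are circuits at generic points.
-/

set_option autoImplicit false

namespace Pool.Agent.HypC

open Finset

/-- The graph obtained from `G` by adding pairwise adjacent vertices, indexed by `K`, all of them
adjacent to all vertices of `G`. -/
def joinCone {V : Type*} (G : SimpleGraph V) (K : Type*) : SimpleGraph (V ⊕ K) where
  Adj
    | .inl x, .inl y => G.Adj x y
    | .inl _, .inr _ => True
    | .inr _, .inl _ => True
    | .inr l, .inr l' => l ≠ l'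
  symm := ⟨by
    rintro (x | x) (y | y) h
    · exact SimpleGraph.Adj.symm h
    · trivial
    · trivial
    · exact Ne.symm h⟩
  loopless := ⟨by
    rintro (x | x) h
    · exact G.loopless.irrefl x h
    · exact h rfl⟩

section stress

variable {A B K J : Type*} [Fintype A] [Fintype B] [Fintype K]

lemma cone_stress (q : ((A ⊕ B) ⊕ K) → J → ℝ) (α β : ((A ⊕ B) ⊕ K) → ℝ)
    (hαA : ∀ x, α (.inl (.inl x)) = 0) (hαB : ∀ y, α (.inl (.inr y)) ≠ 0)
    (hαu : ∀ γ : ((A ⊕ B) ⊕ K) → ℝ, (∀ x, γ (.inl (.inl x)) = 0) → ∑ v, γ v • q v = 0 →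
      ∃ c, ∀ v, γ v = c * α v)
    (hβB : ∀ y, β (.inl (.inr y)) = 0) (hβA : ∀ x, β (.inl (.inl x)) ≠ 0)
    (hα : ∑ v, α v • q v = 0) (hβ : ∑ v, β v • q v = 0)
    (hβu : ∀ γ : ((A ⊕ B) ⊕ K) → ℝ, (∀ y, γ (.inl (.inr y)) = 0) → ∑ v, γ v • q v = 0 →
      ∃ c, ∀ v, γ v = c * β v)
    (x0 : A) (y0 : B) (Ω : ((A ⊕ B) ⊕ K) → ((A ⊕ B) ⊕ K) → ℝ)
    (hΩ : Stress q (joinCone (completeBipartiteGraph A B) K).edgeSet Ω) :
    ∃ lam : ℝ, ∀ i j, Ω i j = lam * (β i * α j - α i * β j) := by
  have hA : ∀ x x', Ω (.inl (.inl x)) (.inl (.inl x')) = 0 := by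
    intro x x'
    apply hΩ.supp
    rw [SimpleGraph.mem_edgeSet]
    simp [joinCone]
  have hB : ∀ y y', Ω (.inl (.inr y)) (.inl (.inr y')) = 0 := by
    intro x x'
    apply hΩ.supp
    rw [SimpleGraph.mem_edgeSet]
    simp [joinCone]
  have h1 : ∀ x, ∃ c, ∀ v, Ω (.inl (.inl x)) v = c * α v :=
    fun x => hαu _ (hA x) (hΩ.bal _)
  have h2 : ∀ y, ∃ c, ∀ v, Ω (.inl (.inr y)) v = c * β v :=
    fun y => hβu _ (hB y) (hΩ.bal _)
  choose c hc using h1
  choose c' hc' using h2
  have hx0 := hβA x0
  have hy0 := hαB y0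
  set lam := c x0 / β (.inl (.inl x0)) with hlam
  have e0 : ∀ x y, c x * α (.inl (.inr y)) = - (c' y * β (.inl (.inl x))) := by
    intro x y
    rw [← hc, ← hc', hΩ.skew]
  have e1 : ∀ y, c' y = - (lam * α (.inl (.inr y))) := by
    intro y
    have := e0 x0 y
    rw [hlam]
    field_simp
    linarith
  have e2 : ∀ x, c x = lam * β (.inl (.inl x)) := by
    intro x
    have h3 := e0 x y0
    rw [e1 y0] at h3
    have h4 : (c x - lam * β (.inl (.inl x))) * α (.inl (.inr y0)) = 0 := by linarith
    rcases mul_eq_zero.1 h4 with h5 | h5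
    · linarith
    · exact absurd h5 hy0
  have e3 : ∀ l v, Ω (.inr l) v = lam * (β (.inr l) * α v - α (.inr l) * β v) := by
    intro l
    set γ : ((A ⊕ B) ⊕ K) → ℝ :=
      fun v => Ω (.inr l) v - lam * (β (.inr l) * α v - α (.inr l) * β v) with hγ
    have g1 : ∀ x, γ (.inl (.inl x)) = 0 := by
      intro x
      simp only [hγ]
      rw [hΩ.skew, hc, e2, hαA]
      ring
    have g2 : ∀ y, γ (.inl (.inr y)) = 0 := by
      intro y
      simp only [hγ]
      rw [hΩ.skew, hc', e1, hβB]
      ring
    have g3 : ∑ v, γ v • q v = 0 := by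
      have : ∑ v, γ v • q v = ∑ v, Ω (.inr l) v • q v - (lam * β (.inr l)) • ∑ v, α v • q v
          + (lam * α (.inr l)) • ∑ v, β v • q v := by
        rw [Finset.smul_sum, Finset.smul_sum, ← Finset.sum_sub_distrib, ← Finset.sum_add_distrib]
        refine Finset.sum_congr rfl fun v _ => ?_
        simp only [hγ, smul_smul]
        rw [← sub_smul, ← add_smul]
        congr 1
        ring
      rw [this, hΩ.bal, hα, hβ]
      simp
    obtain ⟨t, ht⟩ := hαu γ g1 g3
    have ht0 : t = 0 := by
      have := ht (.inl (.inr y0))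
      rw [g2] at this
      rcases mul_eq_zero.1 this.symm with h | h
      · exact h
      · exact absurd h hy0
    intro v
    have := ht v
    rw [ht0, zero_mul] at this
    simp only [hγ] at this
    linarith
  refine ⟨lam, ?_⟩
  rintro ((x | y) | l) v
  · rw [hc, e2, hαA]; ring
  · rw [hc', e1, hβB]; ring
  · exact e3 l v

end stress

section special

variable (m k : ℕ)

/-- vertices of the graph -/
abbrev CV := (Option (Fin m) ⊕ Option (Fin m)) ⊕ Fin k

/-- a special position of the vertices -/
def cq : CV m k → (Fin m ⊕ Fin k) → ℝ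
  | .inl (.inl (some x)) => Pi.single (.inl x) 1
  | .inl (.inl none) => Sum.elim (fun _ => 1) (fun l => (l : ℝ) + 2)
  | .inl (.inr (some x)) => Pi.single (.inl x) 1
  | .inl (.inr none) => fun _ => 1
  | .inr l => Pi.single (.inr l) 1

def cα : CV m k → ℝ
  | .inl (.inl _) => 0
  | .inl (.inr (some _)) => 1
  | .inl (.inr none) => -1
  | .inr _ => 1

def cβ : CV m k → ℝ
  | .inl (.inl (some _)) => 1
  | .inl (.inl none) => -1
  | .inl (.inr _) => 0
  | .inr l => (l : ℝ) + 2

lemma csum (γ : CV m k → ℝ) (c : Fin m ⊕ Fin k) : (∑ v, γ v • cq m k v) c =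
    (match c with
      | .inl x => γ (.inl (.inl (some x))) + γ (.inl (.inl none)) + γ (.inl (.inr (some x)))
          + γ (.inl (.inr none))
      | .inr l => γ (.inl (.inl none)) * ((l : ℝ) + 2) + γ (.inl (.inr none)) + γ (.inr l)) := by
  rw [Fintype.sum_sum_type, Fintype.sum_sum_type, Fintype.sum_option, Fintype.sum_option]
  rcases c with x | l
  · simp only [cq, Pi.add_apply, Finset.sum_apply, Pi.smul_apply, Pi.single_apply, smul_eq_mul,
      Sum.elim_inl, mul_ite, mul_one, mul_zero, Sum.inl.injEq, reduceCtorEq, if_false,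
      Finset.sum_const_zero, Finset.sum_ite_eq, Finset.mem_univ, if_true]
    ring
  · simp only [cq, Pi.add_apply, Finset.sum_apply, Pi.smul_apply, Pi.single_apply, smul_eq_mul,
      Sum.elim_inr, mul_ite, mul_one, mul_zero, Sum.inr.injEq, reduceCtorEq, if_false,
      Finset.sum_const_zero, Finset.sum_ite_eq, Finset.mem_univ, if_true]
    ring

lemma cone_stress_special (Ω : CV m k → CV m k → ℝ)
    (hΩ : Stress (cq m k) (joinCone (completeBipartiteGraph (Option (Fin m)) (Option (Fin m)))
      (Fin k)).edgeSet Ω) :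
    ∃ lam : ℝ, ∀ i j, Ω i j = lam * (cβ m k i * cα m k j - cα m k i * cβ m k j) := by
  refine cone_stress (cq m k) (cα m k) (cβ m k) (fun _ => rfl) ?_ ?_ (fun _ => rfl) ?_ ?_ ?_ ?_
    none none Ω hΩ
  · rintro (_ | y) <;> simp [cα]
  · intro γ hγ h0
    refine ⟨- γ (.inl (.inr none)), ?_⟩
    have h1 : ∀ c, (∑ v, γ v • cq m k v) c = 0 := fun c => by rw [h0]; rfl
    rintro ((x | (_ | y)) | l)
    · simp [hγ, cα]
    · simp [cα]
    · have := h1 (.inl y)
      rw [csum] at this
      simp only [hγ] at this
      simp only [cα]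
      linarith
    · have := h1 (.inr l)
      rw [csum] at this
      simp only [hγ] at this
      simp only [cα]
      linarith
  · rintro (_ | y) <;> simp [cβ]
  · funext c
    rw [csum]
    rcases c with x | l <;> simp [cα]
  · funext c
    rw [csum]
    rcases c with x | l <;> simp [cβ]
  · intro γ hγ h0
    refine ⟨- γ (.inl (.inl none)), ?_⟩
    have h1 : ∀ c, (∑ v, γ v • cq m k v) c = 0 := fun c => by rw [h0]; rfl
    rintro (((_ | x) | y) | l)
    · simp [cβ]
    · have := h1 (.inl x)
      rw [csum] at this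
      simp only [hγ] at this
      simp only [cβ]
      linarith
    · simp [hγ, cβ]
    · have := h1 (.inr l)
      rw [csum] at this
      simp only [hγ] at this
      simp only [cβ]
      linarith

lemma cone_ne (i j : CV m k)
    (h : (joinCone (completeBipartiteGraph (Option (Fin m)) (Option (Fin m)))
      (Fin k)).Adj i j) : cβ m k i * cα m k j - cα m k i * cβ m k j ≠ 0 := by
  have hl : ∀ l : Fin k, ((l : ℝ) + 2) ≠ 0 := fun l => by positivity
  rcases i with ((_ | x) | (_ | y)) | l <;> rcases j with ((_ | x') | (_ | y')) | l' <;>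
    simp only [joinCone, completeBipartiteGraph_adj, Sum.isLeft_inl, Sum.isRight_inl,
      Sum.isLeft_inr, Sum.isRight_inr, and_self, or_self, Bool.false_eq_true, and_false, false_and,
      and_true, true_and, or_false, false_or] at h <;>
    simp only [cα, cβ]
  all_goals first
    | (norm_num; done)
    | (have := hl l; norm_num; exact this)
    | (have := hl l'; norm_num; exact this)
    | (have := hl l; intro h0; apply this; linarith)
    | (have := hl l'; intro h0; apply this; linarith)
    | skip
  intro h0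
  apply h
  have : (l : ℝ) = l' := by linarith
  exact Fin.ext (by exact_mod_cast this)

/-- deleting an edge gives an independent set at the special position -/
theorem cone_indep_special {e : Sym2 (CV m k)}
    (he : e ∈ (joinCone (completeBipartiteGraph (Option (Fin m)) (Option (Fin m)))
      (Fin k)).edgeSet) :
    IndepAt (cq m k) ((joinCone (completeBipartiteGraph (Option (Fin m)) (Option (Fin m)))
      (Fin k)).edgeSet \ {e}) := by
  induction e with
  | _ a b =>
    intro Ω hΩ
    obtain ⟨lam, hlam⟩ := cone_stress_special m k Ω (hΩ.mono Set.sdiff_subset)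
    have h0 : Ω a b = 0 := hΩ.supp a b (by simp)
    rw [hlam] at h0
    rcases mul_eq_zero.1 h0 with h1 | h1
    · intro i j
      rw [hlam, h1, zero_mul]
    · exact absurd h1 (cone_ne m k a b ((SimpleGraph.mem_edgeSet _).1 he))

theorem cone_indep {p : CV m k → (Fin m ⊕ Fin k) → ℝ} (hp : Gen p) {e : Sym2 (CV m k)}
    (he : e ∈ (joinCone (completeBipartiteGraph (Option (Fin m)) (Option (Fin m)))
      (Fin k)).edgeSet) :
    IndepAt p ((joinCone (completeBipartiteGraph (Option (Fin m)) (Option (Fin m)))
      (Fin k)).edgeSet \ {e}) :=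
  (cone_indep_special m k he).of_point hp

end special

/-- More vectors than coordinates: a nontrivial dependency. -/
lemma exists_dep {W J : Type*} [Fintype W] [Fintype J] (h : Fintype.card J < Fintype.card W)
    (v : W → J → ℝ) : ∃ α : W → ℝ, (∃ w, α w ≠ 0) ∧ ∑ w, α w • v w = 0 := by
  classical
  by_contra hcon
  push Not at hcon
  have hli : LinearIndependent ℝ v := by
    rw [Fintype.linearIndependent_iff]
    intro g hg i
    by_contra hi
    exact hcon g ⟨i, hi⟩ hg
  have := hli.fintype_card_le_finrank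
  rw [Module.finrank_fintype_fun_eq_card] at this
  omega

section dep

variable {m k : ℕ}

theorem cone_dep {p : CV m k → (Fin m ⊕ Fin k) → ℝ} (hp : Gen p) :
    ¬ IndepAt p (joinCone (completeBipartiteGraph (Option (Fin m)) (Option (Fin m)))
      (Fin k)).edgeSet := by
  classical
  intro hind
  -- dependency of the second side together with the apexes
  obtain ⟨a, ⟨wa, ha0⟩, ha⟩ := exists_dep (W := Option (Fin m) ⊕ Fin k) (J := Fin m ⊕ Fin k)
    (by simp) (fun w => p (Sum.elim (fun y => .inl (.inr y)) (fun l => .inr l) w))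
  obtain ⟨b, ⟨wb, hb0⟩, hb⟩ := exists_dep (W := Option (Fin m) ⊕ Fin k) (J := Fin m ⊕ Fin k)
    (by simp) (fun w => p (Sum.elim (fun x => .inl (.inl x)) (fun l => .inr l) w))
  set α : CV m k → ℝ := fun v => match v with
    | .inl (.inl _) => 0
    | .inl (.inr y) => a (.inl y)
    | .inr l => a (.inr l) with hα
  set β : CV m k → ℝ := fun v => match v with
    | .inl (.inl x) => b (.inl x)
    | .inl (.inr _) => 0
    | .inr l => b (.inr l) with hβ
  have sα : ∑ v, α v • p v = 0 := by
    rw [Fintype.sum_sum_type, Fintype.sum_sum_type]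
    rw [Fintype.sum_sum_type] at ha
    simpa [hα] using ha
  have sβ : ∑ v, β v • p v = 0 := by
    rw [Fintype.sum_sum_type, Fintype.sum_sum_type]
    rw [Fintype.sum_sum_type] at hb
    simpa [hβ] using hb
  have hst : Stress p (joinCone (completeBipartiteGraph (Option (Fin m)) (Option (Fin m)))
      (Fin k)).edgeSet (fun i j => β i * α j - α i * β j) := by
    refine ⟨fun i j => by ring, ?_, ?_⟩
    · intro i j hij
      rw [SimpleGraph.mem_edgeSet] at hij
      rcases i with (x | y) | l <;> rcases j with (x' | y') | l' <;>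
        simp [joinCone] at hij <;> simp [hα, hβ]
      subst hij
      ring
    · intro i
      have : ∑ j, (β i * α j - α i * β j) • p j
          = β i • ∑ j, α j • p j - α i • ∑ j, β j • p j := by
        rw [Finset.smul_sum, Finset.smul_sum, ← Finset.sum_sub_distrib]
        refine Finset.sum_congr rfl fun j _ => ?_
        rw [sub_smul, smul_smul, smul_smul]
      rw [this, sα, sβ]
      simp
  have hz := hind _ hst
  -- the apexes are independent
  have hK : LinearIndependent ℝ (p ∘ (fun l : Fin k => (.inr l : CV m k))) :=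
    hp.linInd ⟨fun l : Fin k => (.inr l : CV m k), Sum.inr_injective⟩ ⟨Sum.inr, Sum.inr_injective⟩
  rw [Fintype.linearIndependent_iff] at hK
  have hαB : ∃ y, a (.inl y) ≠ 0 := by
    by_contra hcon
    push Not at hcon
    have h1 := hK (fun l => a (.inr l)) (by
      rw [Fintype.sum_sum_type] at ha
      simpa [hcon] using ha)
    rcases wa with y | l
    · exact ha0 (hcon y)
    · exact ha0 (h1 l)
  have hβA : ∃ x, b (.inl x) ≠ 0 := by
    by_contra hcon
    push Not at hcon
    have h1 := hK (fun l => b (.inr l)) (by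
      rw [Fintype.sum_sum_type] at hb
      simpa [hcon] using hb)
    rcases wb with y | l
    · exact hb0 (hcon y)
    · exact hb0 (h1 l)
  obtain ⟨y, hy⟩ := hαB
  obtain ⟨x, hx⟩ := hβA
  have := hz (.inl (.inl x)) (.inl (.inr y))
  simp only [hα, hβ, mul_zero, zero_mul, sub_zero] at this
  rcases mul_eq_zero.1 this with h | h
  · exact hx h
  · exact hy h

end dep

end Pool.Agent.HypC
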