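import Mathlib

/-!
Definitions for the statement about Kalai's hyperconnectivity matroids.
-/

set_option autoImplicit false

namespace Pool.Agent.HypC

/-- The edge set of the complete graph on the vertices `0, …, n - 1`. -/
def EK (n : ℕ) : Set (Sym2 (Fin n)) := (⊤ : SimpleGraph (Fin n)).edgeSet

/-- The vector attached to an edge `ij` with `i < j`: its `i`-th block is `p j`, its `j`-th block is
`- p i`, all other blocks are `0`. -/
noncomputable def edgeVec {n d : ℕ} (p : Fin n → Fin d → ℝ) (e : Sym2 (Fin n)) :
    Fin n → Fin d → ℝ :=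
  Pi.single e.inf (p e.sup) - Pi.single e.sup (p e.inf)

/-- The points are generic: all their coordinates together are algebraically independent over the
rationals. -/
def Generic {n d : ℕ} (p : Fin n → Fin d → ℝ) : Prop :=
  AlgebraicIndependent ℚ (fun x : Fin n × Fin d => p x.1 x.2)

lemma edgeVec_aug {n d : ℕ} (p : Fin n → Fin d → ℝ) {I K : Set (Sym2 (Fin n))}
    (hI : LinearIndepOn ℝ (edgeVec p) I) (hK : LinearIndepOn ℝ (edgeVec p) K)
    (hlt : I.ncard < K.ncard) : ∃ e ∈ K, e ∉ I ∧ LinearIndepOn ℝ (edgeVec p) (insert e I) := by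
  classical
  by_contra hcon
  push Not at hcon
  have hsub : edgeVec p '' K ⊆ Submodule.span ℝ (edgeVec p '' I) := by
    rintro _ ⟨e, he, rfl⟩
    by_cases heI : e ∈ I
    · exact Submodule.subset_span ⟨e, heI, rfl⟩
    · by_contra hns
      exact hcon e he heI ((linearIndepOn_insert heI).2 ⟨hI, hns⟩)
  have hle : Submodule.span ℝ (edgeVec p '' K) ≤ Submodule.span ℝ (edgeVec p '' I) :=
    Submodule.span_le.2 hsub
  have hcard : ∀ S : Set (Sym2 (Fin n)), LinearIndepOn ℝ (edgeVec p) S →
      Module.finrank ℝ (Submodule.span ℝ (edgeVec p '' S)) = S.ncard := by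
    intro S hS
    have := hS.linearIndependent
    have h2 := finrank_span_eq_card this
    rw [← Set.image_eq_range] at h2
    rw [h2, Set.ncard_eq_toFinset_card', Set.toFinset_card]
  have := Submodule.finrank_mono hle
  rw [hcard K hK, hcard I hI] at this
  omega

/-- The matroid on `E(K_n)` in which a set of edges is independent iff its vectors at `p` are
linearly independent. For generic `p` this is the generic `d`-hyperconnectivity matroid. -/
noncomputable def hypMatroid {n d : ℕ} (p : Fin n → Fin d → ℝ) : Matroid (Sym2 (Fin n)) :=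
  (IndepMatroid.ofFinite (E := EK n) (Set.toFinite _)
    (fun I => I ⊆ EK n ∧ LinearIndepOn ℝ (edgeVec p) I)
    ⟨Set.empty_subset _, linearIndepOn_empty ℝ _⟩
    (fun _ _ hJ hIJ => ⟨hIJ.trans hJ.1, hJ.2.mono hIJ⟩)
    (fun _ _ hI hJ hlt => by
      obtain ⟨e, he, he', h⟩ := edgeVec_aug p hI.2 hJ.2 hlt
      exact ⟨e, he, he', Set.insert_subset (hJ.1 he) hI.1, h⟩)
    (fun _ hI => hI.1)).matroid

/-- The cone of a graph: one new vertex, joined to every vertex of the graph. -/
def cone {V : Type} (G : SimpleGraph V) : SimpleGraph (Option V) where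
  Adj
    | some x, some y => G.Adj x y
    | some _, none => True
    | none, some _ => True
    | none, none => False
  symm := ⟨by
    rintro (_ | x) (_ | y) h
    · exact h
    · trivial
    · trivial
    · exact SimpleGraph.Adj.symm h⟩
  loopless := ⟨by
    rintro (_ | x) h
    · exact h
    · exact G.loopless.irrefl x h⟩

/-- The vertex type of the `k`-fold cone. -/
def ConeType (V : Type) : ℕ → Type
  | 0 => V
  | k + 1 => Option (ConeType V k)

/-- The `k`-fold cone of a graph. -/
def iterCone {V : Type} (G : SimpleGraph V) : (k : ℕ) → SimpleGraph (ConeType V k)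
  | 0 => G
  | k + 1 => cone (iterCone G k)

/-- The edge sets of all subgraphs of `K_n` isomorphic to `G` (for graphs `G` without isolated
vertices). -/
def copies {W : Type} (n : ℕ) (G : SimpleGraph W) : Set (Set (Sym2 (Fin n))) :=
  {S | ∃ f : W ↪ Fin n, S = (G.map f).edgeSet}

/-- The family of all copies in `K_n` of the graphs `cone^k (K_{d+1-k,d+1-k})`, `0 ≤ k ≤ d`. -/
def coneFamily (d n : ℕ) : Set (Set (Sym2 (Fin n))) :=
  {S | ∃ k ≤ d,
    S ∈ copies n (iterCone (completeBipartiteGraph (Fin (d + 1 - k)) (Fin (d + 1 - k))) k)}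

section matroids

variable {α : Type*}

/-- An `X`-matroid on `E`: a matroid with ground set `E` in which every member of `X` is a
circuit. -/
def IsXMatroid (E : Set α) (X : Set (Set α)) (M : Matroid α) : Prop :=
  M.E = E ∧ ∀ C ∈ X, M.IsCircuit C

/-- The order on matroids: inclusion of the families of independent sets. -/
def WeakLE (M N : Matroid α) : Prop := ∀ I, M.Indep I → N.Indep I

/-- A maximal `X`-matroid on `E`. -/
def IsMaximalX (E : Set α) (X : Set (Set α)) (M : Matroid α) : Prop :=
  IsXMatroid E X M ∧ ∀ N, IsXMatroid E X N → WeakLE M N → N = M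

/-- A proper `X`-sequence: members of `X`, each of which, apart from the first one, is not
contained in the union of the previous ones. -/
def ProperSeq (X : Set (Set α)) {k : ℕ} (S : Fin k → Set α) : Prop :=
  (∀ i, S i ∈ X) ∧ ∀ i : Fin k, 0 < i.val → ¬ S i ⊆ ⋃ j ∈ {j : Fin k | j < i}, S j

/-- The set of the numbers `|F ∪ X_1 ∪ … ∪ X_k| - k` over all proper `X`-sequences; its least element
is `val_X (F)`. -/
def valSet (X : Set (Set α)) (F : Set α) : Set ℤ :=
  {v | ∃ (k : ℕ) (S : Fin k → Set α), ProperSeq X S ∧ v = ((F ∪ ⋃ i, S i).ncard : ℤ) - k}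

end matroids

end Pool.Agent.HypC
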