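import Pool.Agent.HypC.Defs

/-!
Generic points exist.
-/

set_option autoImplicit false

namespace Pool.Agent.HypC

open Cardinal

theorem exists_generic (n d : ℕ) : ∃ p : Fin n → Fin d → ℝ, Generic p := by
  obtain ⟨s, hs⟩ := exists_isTranscendenceBasis ℚ ℝ
  have hinf : Infinite s := by
    by_contra hfin
    rw [not_infinite_iff_finite] at hfin
    have halg : Algebra.IsAlgebraic (Algebra.adjoin ℚ (Set.range ((↑) : s → ℝ))) ℝ :=
      hs.isAlgebraic
    have h1 := Algebra.IsAlgebraic.cardinalMk_le_max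
      (Algebra.adjoin ℚ (Set.range ((↑) : s → ℝ))) ℝ
    have h2 : #(Algebra.adjoin ℚ (Set.range ((↑) : s → ℝ))) ≤ ℵ₀ := by
      rw [← Cardinal.mk_congr hs.1.aevalEquiv.toEquiv]
      refine (MvPolynomial.cardinalMk_le_max).trans ?_
      simp
    have h3 : #ℝ ≤ ℵ₀ := h1.trans (max_le h2 le_rfl)
    rw [Cardinal.mk_real] at h3
    exact absurd Cardinal.aleph0_lt_continuum (not_lt.2 h3)
  obtain ⟨g⟩ : Nonempty (Fin n × Fin d ↪ s) := by
    refine ⟨?_⟩
    exact (Fintype.equivFin (Fin n × Fin d)).toEmbedding.trans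
      (Fin.valEmbedding.trans (Infinite.natEmbedding s))
  refine ⟨fun i j => (g (i, j) : ℝ), ?_⟩
  exact hs.1.comp _ g.injective

end Pool.Agent.HypC
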