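import Pool.Agent.HypC.Stress

/-!
Generic points: independence at one point implies independence at every generic point.
-/

set_option autoImplicit false

namespace Pool.Agent.HypC

open Finset Matrix MvPolynomial

variable {V W J : Type*}

/-- All coordinates together are algebraically independent over the rationals. -/
def Gen (p : V → J → ℝ) : Prop := AlgebraicIndependent ℚ (fun x : V × J => p x.1 x.2)

lemma Gen.comp {p : V → J → ℝ} (hp : Gen p) (f : W ↪ V) : Gen (p ∘ f) := by
  have := AlgebraicIndependent.comp hp (fun x : W × J => (f x.1, x.2))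
    (by
      rintro ⟨a, b⟩ ⟨a', b'⟩ h
      simp only [Prod.mk.injEq, f.injective.eq_iff] at h
      simp [h])
  exact this

lemma Gen.reindex {J' : Type*} {p : V → J → ℝ} (hp : Gen p) (e : J' ≃ J) :
    Gen (fun v => p v ∘ e) := by
  have := AlgebraicIndependent.comp hp (fun x : V × J' => (x.1, e x.2))
    (by
      rintro ⟨a, b⟩ ⟨a', b'⟩ h
      simp only [Prod.mk.injEq, e.injective.eq_iff] at h
      simp [h])
  exact this

lemma gram_det_ne {A B : Type*} [Fintype A] [Fintype B] [DecidableEq B] (M : Matrix A B ℝ) :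
    (∀ x, M *ᵥ x = 0 → x = 0) ↔ (Mᵀ * M).det ≠ 0 := by
  constructor
  · intro h h0
    obtain ⟨v, hv, h1⟩ := Matrix.exists_mulVec_eq_zero_iff.2 h0
    apply hv
    apply h
    have h2 : (M *ᵥ v) ⬝ᵥ (M *ᵥ v) = 0 := by
      have : v ⬝ᵥ ((Mᵀ * M) *ᵥ v) = 0 := by rw [h1]; simp
      rw [← Matrix.mulVec_mulVec, Matrix.dotProduct_mulVec, Matrix.vecMul_transpose] at this
      exact this
    exact dotProduct_self_eq_zero.1 h2
  · intro h x hx
    by_contra hne
    apply h
    apply Matrix.exists_mulVec_eq_zero_iff.1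
    refine ⟨x, hne, ?_⟩
    rw [← Matrix.mulVec_mulVec, hx, Matrix.mulVec_zero]

theorem inj_transfer {σ A B : Type*} [Fintype A] [Fintype B] (M : Matrix A B (MvPolynomial σ ℚ))
    (q p : σ → ℝ) (hp : AlgebraicIndependent ℚ p)
    (hq : ∀ x, (M.map (aeval q : MvPolynomial σ ℚ → ℝ)) *ᵥ x = 0 → x = 0) :
    ∀ x, (M.map (aeval p : MvPolynomial σ ℚ → ℝ)) *ᵥ x = 0 → x = 0 := by
  classical
  have key : ∀ r : σ → ℝ, ((M.map (aeval r : MvPolynomial σ ℚ → ℝ))ᵀ *
      (M.map (aeval r : MvPolynomial σ ℚ → ℝ))).det = aeval r ((Mᵀ * M).det) := by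
    intro r
    rw [AlgHom.map_det]
    congr 1
    have := (Matrix.map_mul (L := Mᵀ) (M := M) (f := (aeval r : MvPolynomial σ ℚ →ₐ[ℚ] ℝ)))
    rw [AlgHom.mapMatrix_apply, this, Matrix.transpose_map]
  rw [gram_det_ne, key]
  rw [gram_det_ne, key] at hq
  intro h
  apply hq
  have : (Mᵀ * M).det = 0 := by
    have h1 := hp.eq_zero_of_aeval_eq_zero _ h
    exact h1
  rw [this, map_zero]

/-- the polynomial matrix describing stresses -/
noncomputable def stressMat [DecidableEq V] (I : Set (Sym2 V)) [DecidablePred (· ∈ I)] :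
    Matrix ((V × V) ⊕ (V × V) ⊕ (V × J)) (V × V) (MvPolynomial (V × J) ℚ) :=
  fun r k => match r with
    | Sum.inl ij => (if k = ij then 1 else 0) + (if k = ij.swap then 1 else 0)
    | Sum.inr (Sum.inl ij) => if k = ij ∧ s(ij.1, ij.2) ∉ I then 1 else 0
    | Sum.inr (Sum.inr ic) => if k.1 = ic.1 then X (k.2, ic.2) else 0

lemma stressMat_iff [Fintype V] [DecidableEq V] (I : Set (Sym2 V))
    [DecidablePred (· ∈ I)] (q : V → J → ℝ) (Ω : V → V → ℝ) :
    ((stressMat (J := J) I).map (aeval (fun x : V × J => q x.1 x.2) : MvPolynomial (V × J) ℚ → ℝ))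
      *ᵥ (fun k => Ω k.1 k.2) = 0 ↔ Stress q I Ω := by
  have e1 : ∀ i j, (((stressMat (J := J) I).map
      (aeval (fun x : V × J => q x.1 x.2) : MvPolynomial (V × J) ℚ → ℝ))
      *ᵥ (fun k => Ω k.1 k.2)) (Sum.inl (i, j)) = Ω i j + Ω j i := by
    intro i j
    have h1 : ∀ k : V × V, (aeval (fun x : V × J => q x.1 x.2) : MvPolynomial (V × J) ℚ → ℝ)
        ((if k = (i, j) then 1 else 0) + (if k = (i, j).swap then 1 else 0)) * Ω k.1 k.2
        = (if k = (i, j) then Ω k.1 k.2 else 0) + (if k = (j, i) then Ω k.1 k.2 else 0) := by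
      intro k
      rw [map_add, add_mul]
      congr 1
      · split_ifs <;> simp
      · simp only [Prod.swap_prod_mk]
        split_ifs <;> simp
    simp only [Matrix.mulVec, dotProduct, Matrix.map_apply, stressMat]
    rw [Finset.sum_congr rfl fun k _ => h1 k, Finset.sum_add_distrib,
      Finset.sum_ite_eq', Finset.sum_ite_eq']
    simp
  have e2 : ∀ i j, (((stressMat (J := J) I).map
      (aeval (fun x : V × J => q x.1 x.2) : MvPolynomial (V × J) ℚ → ℝ))
      *ᵥ (fun k => Ω k.1 k.2)) (Sum.inr (Sum.inl (i, j))) =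
      if s(i, j) ∉ I then Ω i j else 0 := by
    intro i j
    simp only [Matrix.mulVec, dotProduct, Matrix.map_apply, stressMat, apply_ite, map_one, map_zero]
    split_ifs with h
    · simp [h]
    · simp [h]
  have e3 : ∀ i c, (((stressMat (J := J) I).map
      (aeval (fun x : V × J => q x.1 x.2) : MvPolynomial (V × J) ℚ → ℝ))
      *ᵥ (fun k => Ω k.1 k.2)) (Sum.inr (Sum.inr (i, c))) = ∑ j, Ω i j * q j c := by
    intro i c
    simp only [Matrix.mulVec, dotProduct, Matrix.map_apply, stressMat, apply_ite, aeval_X, map_zero]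
    rw [Fintype.sum_prod_type]
    rw [Finset.sum_eq_single i]
    · simp [mul_comm]
    · intro b _ hb
      simp [hb]
    · simp
  constructor
  · intro h
    refine ⟨fun i j => ?_, fun i j hij => ?_, fun i => ?_⟩
    · have := congrFun h (Sum.inl (i, j))
      rw [e1] at this
      simp only [Pi.zero_apply] at this
      linarith
    · have := congrFun h (Sum.inr (Sum.inl (i, j)))
      rw [e2, if_pos hij] at this
      exact this
    · funext c
      have := congrFun h (Sum.inr (Sum.inr (i, c)))
      rw [e3] at this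
      simpa using this
  · intro h
    funext r
    rcases r with ⟨i, j⟩ | ⟨i, j⟩ | ⟨i, c⟩
    · rw [e1, h.skew i j]; simp
    · rw [e2]
      by_cases h1 : s(i, j) ∈ I
      · simp [h1]
      · rw [if_pos h1]
        exact h.supp i j h1
    · rw [e3, h.bal' i c]; simp

/-- Independence at some point gives independence at every generic point. -/
theorem IndepAt.of_point [Finite J] [Fintype V] {I : Set (Sym2 V)} {q p : V → J → ℝ}
    (hp : Gen p) (hq : IndepAt q I) : IndepAt p I := by
  classical
  have := Fintype.ofFinite J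
  have h1 := inj_transfer (stressMat (J := J) I) (fun x : V × J => q x.1 x.2)
    (fun x : V × J => p x.1 x.2) hp
    (by
      intro x hx
      have hx' : Stress q I (fun i j => x (i, j)) :=
        (stressMat_iff I q (fun i j => x (i, j))).1 hx
      funext k
      have := hq _ hx' k.1 k.2
      simpa using this)
  intro Ω hΩ i j
  have h2 := h1 (fun k => Ω k.1 k.2) ((stressMat_iff I p Ω).2 hΩ)
  exact congrFun h2 (i, j)

/-- At most `|J|` distinct vectors of a generic point are linearly independent. -/
theorem Gen.linInd [Finite J] [Finite W] {p : V → J → ℝ} (hp : Gen p) (f : W ↪ V) (g : W ↪ J) :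
    LinearIndependent ℝ (p ∘ f) := by
  classical
  have := Fintype.ofFinite J
  have := Fintype.ofFinite W
  have hp' : Gen (p ∘ f) := hp.comp f
  set M : Matrix J W (MvPolynomial (W × J) ℚ) := Matrix.of fun c w => X (w, c) with hM
  have h1 := inj_transfer M (fun x : W × J => if g x.1 = x.2 then (1 : ℝ) else 0)
    (fun x : W × J => (p ∘ f) x.1 x.2) hp'
    (by
      intro x hx
      funext w
      have h2 := congrFun hx (g w)
      simp only [Matrix.mulVec, dotProduct, Matrix.map_apply, hM, Matrix.of_apply, aeval_X,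
        Pi.zero_apply] at h2
      rw [Finset.sum_eq_single w] at h2
      · simpa using h2
      · intro b _ hb
        have : g b ≠ g w := fun h => hb (g.injective h)
        simp [this]
      · simp)
  rw [Fintype.linearIndependent_iff]
  intro x hx w
  have h3 := h1 x (by
    funext c
    have h2 := congrFun hx c
    simp only [Finset.sum_apply, Pi.smul_apply, smul_eq_mul, Pi.zero_apply] at h2
    simp only [Matrix.mulVec, dotProduct, Matrix.map_apply, hM, Matrix.of_apply, aeval_X,
      Pi.zero_apply]
    rw [← h2]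
    exact Finset.sum_congr rfl fun w _ => by simp [mul_comm])
  exact congrFun h3 w

end Pool.Agent.HypC
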