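import Pool.Agent.HypC.Defs

/-!
Matroid part: a closed circuit outside the family spoils both statements.
-/

set_option autoImplicit false

namespace Pool.Agent.HypC

open Matroid Set

variable {α : Type*} [Finite α]

/-- rank bound coming from a proper sequence of circuits -/
lemma seq_rank (M : Matroid α) {X : Set (Set α)} (hX : ∀ C ∈ X, M.IsCircuit C) {k : ℕ}
    {S : Fin k → Set α} (hS : ProperSeq X S) {A : Set α} (hA : A ⊆ M.E) (hSA : ∀ i, S i ⊆ A)
    {I : Set α} (hI : M.Indep I) (hIA : I ⊆ A) : I.ncard + k ≤ A.ncard := by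
  have hex : ∀ i : Fin k, ∃ e, e ∈ S i ∧ ∀ j : Fin k, j < i → e ∉ S j := by
    intro i
    by_cases h0 : 0 < i.val
    · have := hS.2 i h0
      rw [Set.not_subset] at this
      obtain ⟨e, he, he'⟩ := this
      refine ⟨e, he, fun j hj hej => he' ?_⟩
      simp only [Set.mem_iUnion]
      exact ⟨j, hj, hej⟩
    · obtain ⟨e, he⟩ := (hX _ (hS.1 i)).nonempty
      refine ⟨e, he, fun j hj => ?_⟩
      have : j.val < i.val := hj
      omega
  choose e he he' using hex
  have hinj : Function.Injective e := by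
    intro i j hij
    by_contra hne
    rcases lt_or_gt_of_ne hne with h | h
    · exact he' j i h (hij ▸ he i)
    · exact he' i j h (hij ▸ he j)
  have hcl : ∀ i, e i ∈ M.closure (A \ Set.range e) := by
    intro i
    induction i using WellFoundedLT.induction with
    | _ i ih =>
      have h1 := (hX _ (hS.1 i)).mem_closure_sdiff_singleton_of_mem (he i)
      have h2 : S i \ {e i} ⊆ M.closure (A \ Set.range e) := by
        rintro x ⟨hx, hxe⟩
        by_cases hr : x ∈ Set.range e
        · obtain ⟨j, rfl⟩ := hr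
          rcases lt_trichotomy j i with h | h | h
          · exact ih j h
          · subst h; exact absurd rfl hxe
          · exact absurd hx (he' j i h)
        · exact M.subset_closure (A \ Set.range e) (Set.sdiff_subset.trans hA)
            ⟨hSA i hx, hr⟩
      exact M.closure_subset_closure_of_subset_closure h2 h1
  have hsub : A ⊆ M.closure (A \ Set.range e) := by
    intro x hx
    by_cases hr : x ∈ Set.range e
    · obtain ⟨j, rfl⟩ := hr
      exact hcl j
    · exact M.subset_closure (A \ Set.range e) (Set.sdiff_subset.trans hA) ⟨hx, hr⟩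
  have h3 : I.encard ≤ (A \ Set.range e).encard := by
    calc I.encard ≤ M.eRk A := hI.encard_le_eRk_of_subset hIA
      _ ≤ M.eRk (M.closure (A \ Set.range e)) := M.eRk_mono hsub
      _ = M.eRk (A \ Set.range e) := M.eRk_closure_eq _
      _ ≤ (A \ Set.range e).encard := M.eRk_le_encard _
  rw [← (Set.toFinite I).cast_ncard_eq, ← (Set.toFinite _).cast_ncard_eq, Nat.cast_le] at h3
  have hrange : Set.range e ⊆ A := by
    rintro _ ⟨i, rfl⟩
    exact hSA i (he i)
  have h4 := Set.ncard_sdiff_add_ncard_of_subset hrange (Set.toFinite A)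
  have h5 : (Set.range e).ncard = k := by
    rw [← Set.image_univ, Set.ncard_image_of_injective _ hinj, Set.ncard_univ]
    simp
  omega

section main

variable (M : Matroid α) (X : Set (Set α)) (hX : ∀ C ∈ X, M.IsCircuit C) (F : Set α)
  (hF : M.IsCircuit F) (hFX : F ∉ X)
  (hflat : ∀ e ∈ M.E, e ∉ F → ∃ f ∈ F, M.Indep (insert e (F \ {f})))

include hX hF hFX hflat

theorem val_part : ∃ r : ℕ, M.eRk F = r ∧ IsLeast (valSet X F) ((r : ℤ) + 1) := by
  have hFpos : 0 < F.ncard := by
    rw [Set.ncard_pos]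
    exact hF.nonempty
  have hFr : M.eRk F = (F.ncard - 1 : ℕ) := by
    have := hF.eRk_add_one_eq
    rw [← (Set.toFinite F).cast_ncard_eq] at this
    have h2 : (F.ncard : ℕ∞) = ((F.ncard - 1 : ℕ) : ℕ∞) + 1 := by
      have h3 : F.ncard = (F.ncard - 1) + 1 := by omega
      exact_mod_cast h3
    rw [h2] at this
    exact le_antisymm ((ENat.add_le_add_iff_right ENat.one_ne_top).1 this.le)
      ((ENat.add_le_add_iff_right ENat.one_ne_top).1 this.ge)
  refine ⟨F.ncard - 1, hFr, ?_, ?_⟩
  · refine ⟨0, Fin.elim0, ⟨fun i => i.elim0, fun i => i.elim0⟩, ?_⟩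
    simp
    omega
  · rintro v ⟨k, S, hS, rfl⟩
    have hSE : ∀ i, S i ⊆ M.E := fun i => (hX _ (hS.1 i)).subset_ground
    have hAE : (F ∪ ⋃ i, S i) ⊆ M.E := Set.union_subset hF.subset_ground (Set.iUnion_subset hSE)
    by_cases hsub : (⋃ i, S i) ⊆ F
    · rw [Set.union_eq_left.2 hsub]
      have hk : k = 0 := by
        by_contra hk
        have hk' : 0 < k := Nat.pos_of_ne_zero hk
        have h1 : S ⟨0, hk'⟩ ⊆ F := (Set.subset_iUnion S ⟨0, hk'⟩).trans hsub
        have h2 := (hX _ (hS.1 ⟨0, hk'⟩)).eq_of_subset_isCircuit hF h1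
        exact hFX (h2 ▸ hS.1 ⟨0, hk'⟩)
      subst hk
      push_cast
      omega
    · rw [Set.not_subset] at hsub
      obtain ⟨e, he, heF⟩ := hsub
      obtain ⟨f, hf, hind⟩ := hflat e (Set.iUnion_subset hSE he) heF
      have h1 := seq_rank M hX hS hAE
        (fun i => (Set.subset_iUnion S i).trans Set.subset_union_right) hind
        (Set.insert_subset (Or.inr he) (Set.sdiff_subset.trans Set.subset_union_left))
      have h2 : (insert e (F \ {f})).ncard = F.ncard := by
        rw [Set.ncard_insert_of_notMem (fun h => heF h.1) (Set.toFinite _),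
          Set.ncard_sdiff_singleton_of_mem hf]
        omega
      rw [h2] at h1
      have : (((F.ncard - 1 : ℕ) : ℤ) + 1) = F.ncard := by omega
      rw [this]
      omega

omit hX hFX [Finite α] in
lemma closure_F : M.closure F = F := by
  apply Set.Subset.antisymm _ (M.subset_closure F hF.subset_ground)
  intro e he
  by_contra heF
  obtain ⟨f, hf, hind⟩ := hflat e (M.closure_subset_ground F he) heF
  have h1 : M.closure F = M.closure (F \ {f}) := (hF.closure_sdiff_singleton_eq f).symm
  rw [h1] at he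
  have h2 : e ∉ M.closure (F \ {f}) := by
    intro h
    have := (hind.notMem_closure_sdiff_of_mem (Set.mem_insert e _))
    apply this
    have h3 : insert e (F \ {f}) \ {e} = F \ {f} := by
      rw [Set.insert_sdiff_of_mem _ (Set.mem_singleton e),
        Set.sdiff_singleton_eq_self (fun h => heF h.1)]
    rw [h3]
    exact h
  exact h2 he

omit hX hFX in
/-- the augmentation property of the relaxed truncation -/
lemma relax_aug {I K : Set α} (hI : (M.Indep I ∧ I.ncard ≤ F.ncard) ∨ I = F)
    (hK : (M.Indep K ∧ K.ncard ≤ F.ncard) ∨ K = F) (hlt : I.ncard < K.ncard) :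
    ∃ e ∈ K, e ∉ I ∧ ((M.Indep (insert e I) ∧ (insert e I).ncard ≤ F.ncard) ∨ insert e I = F) := by
  rcases hI with ⟨hI, hIc⟩ | rfl
  swap
  · rcases hK with ⟨_, hKc⟩ | rfl <;> omega
  have hKle : K.ncard ≤ F.ncard := by
    rcases hK with ⟨_, h⟩ | rfl
    · exact h
    · exact le_rfl
  have hins : ∀ e, e ∉ I → (insert e I).ncard ≤ F.ncard := by
    intro e he
    rw [Set.ncard_insert_of_notMem he (Set.toFinite _)]
    omega
  rcases hK with ⟨hK, _⟩ | rfl
  · obtain ⟨e, he, h⟩ := hI.augment hK (by
      rw [← (Set.toFinite I).cast_ncard_eq, ← (Set.toFinite K).cast_ncard_eq]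
      exact_mod_cast hlt)
    exact ⟨e, he.1, he.2, Or.inl ⟨h, hins e he.2⟩⟩
  · by_cases hex : ∃ e ∈ K, e ∉ I ∧ M.Indep (insert e I)
    · obtain ⟨e, he, heI, h⟩ := hex
      exact ⟨e, he, heI, Or.inl ⟨h, hins e heI⟩⟩
    · push Not at hex
      have hcl : K ⊆ M.closure I := by
        intro e he
        by_cases heI : e ∈ I
        · exact M.mem_closure_of_mem heI hI.subset_ground
        · by_contra hne
          exact hex e he heI ((hI.notMem_closure_iff_of_notMem heI
            (hF.subset_ground he)).1 hne)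
      have hK1 := hF.eRk_add_one_eq
      have hr : M.eRk K ≤ M.eRk I := by
        rw [← M.eRk_closure_eq I]
        exact M.eRk_mono hcl
      have hrI : M.eRk I = I.encard := hI.eRk_eq_encard
      have hle : M.eRk (M.closure I) ≤ M.eRk K := by
        rw [M.eRk_closure_eq, hrI]
        have h1 : I.encard + 1 ≤ M.eRk K + 1 := by
          rw [hK1, ← (Set.toFinite I).cast_ncard_eq, ← (Set.toFinite K).cast_ncard_eq]
          exact_mod_cast hlt
        exact (ENat.add_le_add_iff_right ENat.one_ne_top).1 h1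
      have hclK : M.closure K = M.closure (M.closure I) :=
        (M.isRkFinite_of_finite (Set.toFinite K)).closure_eq_closure_of_subset_of_eRk_ge_eRk
          hcl hle
      rw [closure_F M K hF hflat, M.closure_closure] at hclK
      have hIK : I ⊆ K := by
        rw [hclK]
        exact M.subset_closure I hI.subset_ground
      have hne : I ≠ K := by
        rintro rfl
        omega
      obtain ⟨e, he, heI⟩ := Set.exists_of_ssubset (hIK.ssubset_of_ne hne)
      refine ⟨e, he, heI, Or.inr ?_⟩
      apply Set.eq_of_subset_of_ncard_le (Set.insert_subset he hIK) _ (Set.toFinite K)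
      rw [Set.ncard_insert_of_notMem heI (Set.toFinite _)]
      have h1 : M.eRk K ≤ I.encard := hr.trans hrI.le
      have h2 : K.encard ≤ I.encard + 1 := by
        rw [← hK1]
        exact add_le_add_left h1 1
      rw [← (Set.toFinite I).cast_ncard_eq, ← (Set.toFinite K).cast_ncard_eq] at h2
      exact_mod_cast h2

omit hX hFX in
/-- the relaxed truncation -/
lemma exists_relax : ∃ N : Matroid α, N.E = M.E ∧
    ∀ I, N.Indep I ↔ ((M.Indep I ∧ I.ncard ≤ F.ncard) ∨ I = F) := by
  refine ⟨(IndepMatroid.ofFinite (E := M.E) (Set.toFinite _)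
    (fun I => (M.Indep I ∧ I.ncard ≤ F.ncard) ∨ I = F) ?_ ?_ ?_ ?_).matroid, rfl, fun I => Iff.rfl⟩
  · exact Or.inl ⟨M.empty_indep, by simp⟩
  · rintro I K (⟨hK, hKc⟩ | rfl) hIK
    · exact Or.inl ⟨hK.subset hIK, (Set.ncard_le_ncard hIK (Set.toFinite _)).trans hKc⟩
    · by_cases h : I = K
      · exact Or.inr h
      · exact Or.inl ⟨hF.ssubset_indep (hIK.ssubset_of_ne h),
          Set.ncard_le_ncard hIK (Set.toFinite _)⟩
  · intro I K hI hK hlt
    exact relax_aug M F hF hflat hI hK hlt
  · rintro I (⟨hI, _⟩ | rfl)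
    · exact hI.subset_ground
    · exact hF.subset_ground

theorem max_part (hcard : ∀ C ∈ X, C.ncard ≤ F.ncard + 1) :
    ∃ N, IsMaximalX M.E X N ∧ N ≠ M := by
  classical
  obtain ⟨N0, hN0E, hN0⟩ := exists_relax M F hF hflat
  have hN0X : IsXMatroid M.E X N0 := by
    refine ⟨hN0E, fun C hC => ?_⟩
    have hCM := hX C hC
    rw [isCircuit_iff_dep_forall_sdiff_singleton_indep]
    refine ⟨⟨?_, hN0E ▸ hCM.subset_ground⟩, fun e he => ?_⟩
    · rw [hN0]
      rintro (⟨h, _⟩ | h)
      · exact hCM.not_indep h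
      · exact hFX (h ▸ hC)
    · rw [hN0]
      refine Or.inl ⟨hCM.sdiff_singleton_indep he, ?_⟩
      rw [Set.ncard_sdiff_singleton_of_mem he]
      have := hcard C hC
      omega
  set T : Set ℕ := {t | ∃ N, IsXMatroid M.E X N ∧ WeakLE N0 N ∧
    t = {I : Set α | N.Indep I}.ncard} with hT
  have hTne : T.Nonempty := ⟨_, N0, hN0X, fun _ h => h, rfl⟩
  have hTb : BddAbove T := by
    refine ⟨(Set.univ : Set (Set α)).ncard, ?_⟩
    rintro t ⟨N, _, _, rfl⟩
    exact Set.ncard_le_ncard (Set.subset_univ _) (Set.toFinite _)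
  obtain ⟨N, hNX, hN0N, ht⟩ := Nat.sSup_mem hTne hTb
  refine ⟨N, ⟨hNX, fun N' hN'X hNN' => ?_⟩, ?_⟩
  · have h1 : {I : Set α | N'.Indep I}.ncard ≤ {I : Set α | N.Indep I}.ncard := by
      rw [← ht]
      exact le_csSup hTb ⟨N', hN'X, fun I hI => hNN' I (hN0N I hI), rfl⟩
    have h2 : {I : Set α | N.Indep I} ⊆ {I : Set α | N'.Indep I} := fun I hI => hNN' I hI
    have h3 := Set.eq_of_subset_of_ncard_le h2 h1 (Set.toFinite _)
    apply Matroid.ext_indep (by rw [hN'X.1, hNX.1])
    intro I _
    constructor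
    · intro h
      have : I ∈ {I : Set α | N.Indep I} := h3 ▸ h
      exact this
    · intro h
      exact hNN' I h
  · rintro rfl
    have : N.Indep F := hN0N F ((hN0 F).2 (Or.inr rfl))
    exact hF.not_indep this

end main

end Pool.Agent.HypC
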