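import Pool.Agent.HypC.TriGen
import Pool.Agent.HypC.Mat

/-!
The linear matroid of the edge vectors in terms of stresses; copies of the graphs in `K_n`.
-/

set_option autoImplicit false

namespace Pool.Agent.HypC

open Finset

variable {n d : ℕ}

lemma mem_EK (i j : Fin n) : s(i, j) ∈ EK n ↔ i ≠ j := by
  rw [EK, SimpleGraph.mem_edgeSet, SimpleGraph.top_adj]

lemma sum_edgeVec (p : Fin n → Fin d → ℝ) (Ω : Fin n → Fin n → ℝ) (hskew : ∀ i j, Ω i j = - Ω j i)
    (i : Fin n) : (∑ e : Sym2 (Fin n), Ω e.inf e.sup • edgeVec p e) i = ∑ j, Ω i j • p j := by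
  classical
  rw [Finset.sum_apply]
  have hinj : Function.Injective (fun j : Fin n => s(i, j)) := by
    intro j j' h
    simp only [Sym2.eq_iff] at h
    rcases h with ⟨_, h⟩ | ⟨h1, h2⟩
    · exact h
    · rw [h2, h1]
  have hdiag : Ω i i = 0 := by
    have := hskew i i
    linarith
  have h1 : ∑ e : Sym2 (Fin n), (Ω e.inf e.sup • edgeVec p e) i =
      ∑ j, (Ω s(i, j).inf s(i, j).sup • edgeVec p s(i, j)) i := by
    rw [← Finset.sum_image (s := univ) (g := fun j : Fin n => s(i, j))
      (f := fun e => (Ω e.inf e.sup • edgeVec p e) i) (fun _ _ _ _ h => hinj h)]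
    symm
    apply Finset.sum_subset (Finset.subset_univ _)
    intro e _ he
    induction e with
    | _ a b =>
      have ha : i ≠ a := by
        rintro rfl
        exact he (Finset.mem_image.2 ⟨b, Finset.mem_univ _, rfl⟩)
      have hb : i ≠ b := by
        rintro rfl
        exact he (Finset.mem_image.2 ⟨a, Finset.mem_univ _, Sym2.eq_swap⟩)
      have h2 : i ≠ a ⊓ b := by
        rcases le_total a b with h | h
        · rwa [inf_eq_left.2 h]
        · rwa [inf_eq_right.2 h]
      have h3 : i ≠ a ⊔ b := by
        rcases le_total a b with h | h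
        · rwa [sup_eq_right.2 h]
        · rwa [sup_eq_left.2 h]
      simp only [Pi.smul_apply, edgeVec, Sym2.inf_mk, Sym2.sup_mk, Pi.sub_apply]
      rw [Pi.single_eq_of_ne h2, Pi.single_eq_of_ne h3, sub_zero, smul_zero]
  rw [h1]
  refine Finset.sum_congr rfl fun j _ => ?_
  simp only [Pi.smul_apply, edgeVec, Sym2.inf_mk, Sym2.sup_mk, Pi.sub_apply]
  rcases lt_trichotomy i j with h | h | h
  · rw [inf_eq_left.2 h.le, sup_eq_right.2 h.le, Pi.single_eq_same,
      Pi.single_eq_of_ne h.ne, sub_zero]
  · subst h
    simp [hdiag]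
  · rw [inf_eq_right.2 h.le, sup_eq_left.2 h.le, Pi.single_eq_same,
      Pi.single_eq_of_ne h.ne', zero_sub, smul_neg, hskew i j, neg_smul]

theorem linInd_iff (p : Fin n → Fin d → ℝ) {I : Set (Sym2 (Fin n))} (hI : I ⊆ EK n) :
    LinearIndepOn ℝ (edgeVec p) I ↔ IndepAt p I := by
  classical
  constructor
  · intro h Ω hΩ
    have h0 : ∑ e : Sym2 (Fin n), Ω e.inf e.sup • edgeVec p e = 0 := by
      funext i
      rw [sum_edgeVec p Ω hΩ.skew, hΩ.bal]
      rfl
    have hsupp : ∀ e ∉ I, Ω e.inf e.sup = 0 := by
      intro e he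
      apply hΩ.supp
      have : s(e.inf, e.sup) = e := by
        induction e with
        | _ a b =>
          simp only [Sym2.inf_mk, Sym2.sup_mk]
          rcases le_total a b with h | h
          · rw [inf_eq_left.2 h, sup_eq_right.2 h]
          · rw [inf_eq_right.2 h, sup_eq_left.2 h]; exact Sym2.eq_swap
      rwa [this]
    rw [linearIndepOn_iff'] at h
    have h1 := h (univ.filter (· ∈ I)) (fun e => Ω e.inf e.sup) (by
        intro e he
        simpa using he) (by
        rw [← h0, Finset.sum_filter]
        refine Finset.sum_congr rfl fun e _ => ?_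
        split_ifs with he
        · rfl
        · rw [hsupp e he, zero_smul])
    have h2 : ∀ e : Sym2 (Fin n), Ω e.inf e.sup = 0 := by
      intro e
      by_cases he : e ∈ I
      · exact h1 e (by simpa using he)
      · exact hsupp e he
    intro i j
    rcases le_total i j with h3 | h3
    · have := h2 s(i, j)
      simpa [inf_eq_left.2 h3, sup_eq_right.2 h3] using this
    · have := h2 s(i, j)
      rw [hΩ.skew]
      simpa [inf_eq_right.2 h3, sup_eq_left.2 h3] using this
  · intro h
    rw [linearIndepOn_iff']
    intro t g ht h0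
    set G : Sym2 (Fin n) → ℝ := fun e => if e ∈ t then g e else 0 with hG
    set Ω : Fin n → Fin n → ℝ := fun i j => if i < j then G s(i, j) else
      if j < i then - G s(i, j) else 0 with hΩ
    have hskew : ∀ i j, Ω i j = - Ω j i := by
      intro i j
      simp only [hΩ]
      rcases lt_trichotomy i j with h1 | h1 | h1
      · rw [if_pos h1, if_neg h1.not_gt, if_pos h1, neg_neg, Sym2.eq_swap]
      · subst h1; simp
      · rw [if_neg h1.not_gt, if_pos h1, if_pos h1, Sym2.eq_swap]
    have hdiag : ∀ i, s(i, i) ∉ t := by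
      intro i hi
      have := hI (ht hi)
      rw [mem_EK] at this
      exact this rfl
    have hval : ∀ e : Sym2 (Fin n), Ω e.inf e.sup = G e := by
      intro e
      induction e with
      | _ a b =>
        simp only [Sym2.inf_mk, Sym2.sup_mk, hΩ]
        rcases lt_trichotomy a b with h1 | h1 | h1
        · rw [inf_eq_left.2 h1.le, sup_eq_right.2 h1.le, if_pos h1]
        · subst h1
          simp [hG, hdiag]
        · rw [inf_eq_right.2 h1.le, sup_eq_left.2 h1.le, if_pos h1, Sym2.eq_swap]
    have hst : Stress p I Ω := by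
      refine ⟨hskew, ?_, ?_⟩
      · intro i j hij
        have h1 : G s(i, j) = 0 := by
          have h3 : s(i, j) ∉ t := fun h2 => hij (ht h2)
          simp only [hG, h3, if_false]
        simp only [hΩ, h1]
        split_ifs <;> simp
      · intro i
        rw [← sum_edgeVec p Ω hskew]
        have : ∑ e : Sym2 (Fin n), Ω e.inf e.sup • edgeVec p e = 0 := by
          rw [← h0]
          rw [← Finset.sum_subset (Finset.subset_univ t)]
          · refine Finset.sum_congr rfl fun e he => ?_
            rw [hval]
            simp only [hG, he, if_true]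
          · intro e _ he
            rw [hval]
            simp only [hG, he, if_false, zero_smul]
        rw [this]; rfl
    intro e he
    have h1 := h Ω hst e.inf e.sup
    rw [hval] at h1
    simpa [hG, he] using h1

lemma hyp_ground (p : Fin n → Fin d → ℝ) : (hypMatroid p).E = EK n := rfl

lemma hyp_indep (p : Fin n → Fin d → ℝ) (I : Set (Sym2 (Fin n))) :
    (hypMatroid p).Indep I ↔ I ⊆ EK n ∧ IndepAt p I := by
  have : (hypMatroid p).Indep I ↔ I ⊆ EK n ∧ LinearIndepOn ℝ (edgeVec p) I := Iff.rfl
  rw [this]
  constructor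
  · rintro ⟨h1, h2⟩
    exact ⟨h1, (linInd_iff p h1).1 h2⟩
  · rintro ⟨h1, h2⟩
    exact ⟨h1, (linInd_iff p h1).2 h2⟩

/-- adding one more apex -/
def optEquiv (V : Type) (k : ℕ) : Option (V ⊕ Fin k) ≃ V ⊕ Fin (k + 1) where
  toFun
    | none => .inr (Fin.last k)
    | some (.inl v) => .inl v
    | some (.inr l) => .inr l.castSucc
  invFun
    | .inl v => some (.inl v)
    | .inr l => Fin.lastCases none (fun l => some (.inr l)) l
  left_inv := by
    rintro (_ | v | l) <;> simp
  right_inv := by
    rintro (v | l)
    · rfl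
    · induction l using Fin.lastCases with
      | last => simp
      | cast l => simp

lemma exists_iterCone_equiv {V : Type} (G : SimpleGraph V) (k : ℕ) :
    ∃ e : ConeType V k ≃ V ⊕ Fin k, ∀ x y,
      (iterCone G k).Adj x y ↔ (joinCone G (Fin k)).Adj (e x) (e y) := by
  induction k with
  | zero =>
    refine ⟨(Equiv.sumEmpty V (Fin 0)).symm, fun x y => ?_⟩
    exact Iff.rfl
  | succ k ih =>
    obtain ⟨e, he⟩ := ih
    have h : ∀ x y : Option (ConeType V k), (cone (iterCone G k)).Adj x y ↔
        (joinCone G (Fin (k + 1))).Adj (optEquiv V k (x.map e)) (optEquiv V k (y.map e)) := by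
      rintro (_ | x) (_ | y)
      · simp [cone, optEquiv, joinCone]
      · simp only [cone, Option.map_none, Option.map_some, true_iff]
        rcases e y with v | l
        · simp [optEquiv, joinCone]
        · simp only [optEquiv, joinCone, Equiv.coe_fn_mk]
          exact (Fin.castSucc_lt_last l).ne'
      · simp only [cone, Option.map_none, Option.map_some, true_iff]
        rcases e x with v | l
        · simp [optEquiv, joinCone]
        · simp only [optEquiv, joinCone, Equiv.coe_fn_mk]
          exact (Fin.castSucc_lt_last l).ne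
      · simp only [cone, Option.map_some, he]
        rcases e x with v | l <;> rcases e y with v' | l' <;> simp [optEquiv, joinCone]
    exact ⟨(Equiv.optionCongr e).trans (optEquiv V k), h⟩

/-- every member of the family is the image of the standard graph -/
lemma family_form {C : Set (Sym2 (Fin n))} (hC : C ∈ coneFamily d n) :
    ∃ (m k : ℕ) (_ : m + k = d) (g : CV m k ↪ Fin n), C = Sym2.map g ''
      (joinCone (completeBipartiteGraph (Option (Fin m)) (Option (Fin m))) (Fin k)).edgeSet := by
  obtain ⟨k, hk, f, rfl⟩ := hC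
  obtain ⟨m, rfl⟩ : ∃ m, d = m + k := ⟨d - k, by omega⟩
  obtain ⟨e, he⟩ := exists_iterCone_equiv
    (completeBipartiteGraph (Fin (m + k + 1 - k)) (Fin (m + k + 1 - k))) k
  have hm : m + k + 1 - k = m + 1 := by omega
  set ε : Option (Fin m) ≃ Fin (m + k + 1 - k) :=
    (finSuccEquiv m).symm.trans (finCongr hm.symm) with hε
  set E : CV m k ≃ ConeType (Fin (m + k + 1 - k) ⊕ Fin (m + k + 1 - k)) k :=
    (Equiv.sumCongr (Equiv.sumCongr ε ε) (Equiv.refl _)).trans e.symm with hE
  have hadj : ∀ x y, (joinCone (completeBipartiteGraph (Option (Fin m)) (Option (Fin m)))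
      (Fin k)).Adj x y ↔ (iterCone (completeBipartiteGraph (Fin (m + k + 1 - k))
        (Fin (m + k + 1 - k))) k).Adj (E x) (E y) := by
    intro x y
    rw [he]
    simp only [hE, Equiv.trans_apply, Equiv.apply_symm_apply]
    rcases x with (x | x) | x <;> rcases y with (y | y) | y <;> simp [joinCone]
  refine ⟨m, k, rfl, E.toEmbedding.trans f, ?_⟩
  ext z
  induction z with
  | _ u v =>
    rw [SimpleGraph.mem_edgeSet]
    constructor
    · intro h
      rw [SimpleGraph.map_adj] at h
      obtain ⟨a, b, hab, rfl, rfl⟩ := h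
      refine ⟨s(E.symm a, E.symm b), ?_, by simp⟩
      rw [SimpleGraph.mem_edgeSet, hadj]
      simpa using hab
    · rintro ⟨w, hw, h⟩
      induction w with
      | _ x y =>
        rw [SimpleGraph.mem_edgeSet, hadj] at hw
        simp only [Sym2.map_mk, Sym2.eq_iff] at h
        rw [SimpleGraph.map_adj]
        rcases h with ⟨h1, h2⟩ | ⟨h1, h2⟩
        · exact ⟨_, _, hw, h1, h2⟩
        · exact ⟨_, _, hw.symm, h2, h1⟩

end Pool.Agent.HypC
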