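import Pool.Agent.HypC.Link

/-!
Assembly.
-/

set_option autoImplicit false

namespace Pool.Agent.HypC

open Finset

variable {n d : ℕ}

lemma generic_gen {p : Fin n → Fin d → ℝ} (hp : Generic p) : Gen p := hp

lemma map_sdiff {V W : Type*} (g : W ↪ V) (I : Set (Sym2 W)) (e : Sym2 W) :
    Sym2.map g '' I \ {Sym2.map g e} = Sym2.map g '' (I \ {e}) := by
  rw [Set.image_sdiff (Sym2.map.injective g.injective), Set.image_singleton]

lemma image_subset_EK {W : Type*} (g : W ↪ Fin n) (G : SimpleGraph W) :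
    Sym2.map g '' G.edgeSet ⊆ EK n := by
  rintro _ ⟨e, he, rfl⟩
  induction e with
  | _ x y =>
    rw [Sym2.map_mk, mem_EK]
    intro h
    rw [SimpleGraph.mem_edgeSet, g.injective h] at he
    exact G.loopless.irrefl _ he

theorem family_circuit {p : Fin n → Fin d → ℝ} (hp : Generic p) {C : Set (Sym2 (Fin n))}
    (hC : C ∈ coneFamily d n) : (hypMatroid p).IsCircuit C := by
  obtain ⟨m, k, hmk, g, rfl⟩ := family_form hC
  set ε : Fin m ⊕ Fin k ≃ Fin d := finSumFinEquiv.trans (finCongr hmk) with hε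
  have hgen : Gen (fun v => (p ∘ g) v ∘ ε) := ((generic_gen hp).comp g).reindex ε
  rw [Matroid.isCircuit_iff_dep_forall_sdiff_singleton_indep]
  refine ⟨⟨?_, image_subset_EK g _⟩, ?_⟩
  · rw [hyp_indep]
    rintro ⟨_, h⟩
    rw [indepAt_image, ← indepAt_reindex ε] at h
    exact cone_dep hgen h
  · rintro _ ⟨e, he, rfl⟩
    rw [hyp_indep]
    refine ⟨Set.sdiff_subset.trans (image_subset_EK g _), ?_⟩
    rw [map_sdiff, indepAt_image, ← indepAt_reindex ε]
    exact cone_indep m k hgen he

lemma family_card {C : Set (Sym2 (Fin n))} (hC : C ∈ coneFamily d n) :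
    C.ncard ≤ (d + 1) ^ 2 := by
  classical
  obtain ⟨m, k, hmk, g, rfl⟩ := family_form hC
  set φ : (Option (Fin m) ⊕ Fin k) × (Option (Fin m) ⊕ Fin k) → Sym2 (Fin n) := fun z =>
    s(g (Sum.elim (fun x => .inl (.inl x)) (fun l => .inr l) z.1),
      g (Sum.elim (fun x => .inl (.inr x)) (fun l => .inr l) z.2)) with hφ
  have hsub : Sym2.map g '' (joinCone (completeBipartiteGraph (Option (Fin m)) (Option (Fin m)))
      (Fin k)).edgeSet ⊆ Set.range φ := by
    rintro _ ⟨e, he, rfl⟩
    induction e with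
    | _ x y =>
      rw [SimpleGraph.mem_edgeSet] at he
      rcases x with (x | x) | x <;> rcases y with (y | y) | y
      · simp [joinCone] at he
      · exact ⟨(.inl x, .inl y), rfl⟩
      · exact ⟨(.inl x, .inr y), rfl⟩
      · exact ⟨(.inl y, .inl x), Sym2.eq_swap⟩
      · simp [joinCone] at he
      · exact ⟨(.inr y, .inl x), Sym2.eq_swap⟩
      · exact ⟨(.inl y, .inr x), Sym2.eq_swap⟩
      · exact ⟨(.inr x, .inl y), rfl⟩
      · exact ⟨(.inr x, .inr y), rfl⟩
  have h1 := Set.ncard_le_ncard hsub (Set.toFinite _)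
  have h2 : (Set.range φ).ncard ≤ (d + 1) ^ 2 := by
    rw [← Set.image_univ]
    refine (Set.ncard_image_le (Set.toFinite _)).trans ?_
    rw [Set.ncard_univ, Nat.card_eq_fintype_card]
    simp only [Fintype.card_prod, Fintype.card_sum, Fintype.card_option, Fintype.card_fin]
    rw [← hmk]
    apply le_of_eq
    ring
  exact h1.trans h2

section tri

variable {m : ℕ}

theorem tri_circuit {p : Fin n → Fin (m + 5) → ℝ} (hp : Generic p) (f : TV m ↪ Fin n) :
    (hypMatroid p).IsCircuit (Sym2.map f '' (TG m).edgeSet) := by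
  set ε : Fin 5 ⊕ Fin m ≃ Fin (m + 5) := finSumFinEquiv.trans (finCongr (by omega)) with hε
  have hgen : Gen (fun v => (p ∘ f) v ∘ ε) := ((generic_gen hp).comp f).reindex ε
  rw [Matroid.isCircuit_iff_dep_forall_sdiff_singleton_indep]
  refine ⟨⟨?_, image_subset_EK f _⟩, ?_⟩
  · rw [hyp_indep]
    rintro ⟨_, h⟩
    rw [indepAt_image, ← indepAt_reindex ε] at h
    exact tri_dep hgen h
  · rintro _ ⟨e, he, rfl⟩
    rw [hyp_indep]
    refine ⟨Set.sdiff_subset.trans (image_subset_EK f _), ?_⟩
    rw [map_sdiff, indepAt_image, ← indepAt_reindex ε]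
    exact tri_indep hgen he

/-- a fixed edge -/
def e0 : Sym2 (TV m) := s(.inl (.inl 0), .inr (.inl 0))

lemma e0_mem : (e0 : Sym2 (TV m)) ∈ (TG m).edgeSet := by
  rw [e0, mem_TG]; simp [part]

theorem tri_flat {p : Fin n → Fin (m + 5) → ℝ} (hp : Generic p) (f : TV m ↪ Fin n)
    (e : Sym2 (Fin n)) (he : e ∈ EK n) (heF : e ∉ Sym2.map f '' (TG m).edgeSet) :
    ∃ g ∈ Sym2.map f '' (TG m).edgeSet,
      (hypMatroid p).Indep (insert e (Sym2.map f '' (TG m).edgeSet \ {g})) := by
  set ε : Fin 5 ⊕ Fin m ≃ Fin (m + 5) := finSumFinEquiv.trans (finCongr (by omega)) with hε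
  have hgen : Gen (fun v => (p ∘ f) v ∘ ε) := ((generic_gen hp).comp f).reindex ε
  induction e with
  | _ u v =>
    rw [mem_EK] at he
    by_cases hr : ∃ a b, f a = u ∧ f b = v
    · obtain ⟨a, b, rfl, rfl⟩ := hr
      have hab : a ≠ b := fun h => he (congrArg f h)
      have hpart : part a = part b := by
        by_contra hne
        exact heF ⟨s(a, b), (mem_TG m a b).2 hne, by simp⟩
      obtain ⟨g, hg, hind⟩ := tri_insert hgen a b hab hpart
      refine ⟨Sym2.map f g, ⟨g, hg, rfl⟩, ?_⟩
      rw [hyp_indep]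
      refine ⟨Set.insert_subset ((mem_EK _ _).2 he)
        (Set.sdiff_subset.trans (image_subset_EK f _)), ?_⟩
      have : insert s(f a, f b) (Sym2.map f '' (TG m).edgeSet \ {Sym2.map f g}) =
          Sym2.map f '' (insert s(a, b) ((TG m).edgeSet \ {g})) := by
        rw [map_sdiff, Set.image_insert_eq, Sym2.map_mk]
      rw [this, indepAt_image, ← indepAt_reindex ε]
      exact hind
    · refine ⟨Sym2.map f e0, ⟨e0, e0_mem, rfl⟩, ?_⟩
      rw [hyp_indep]
      refine ⟨Set.insert_subset ((mem_EK _ _).2 he)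
        (Set.sdiff_subset.trans (image_subset_EK f _)), ?_⟩
      have hbase : IndepAt p (Sym2.map f '' (TG m).edgeSet \ {Sym2.map f e0}) := by
        rw [map_sdiff, indepAt_image, ← indepAt_reindex ε]
        exact tri_indep hgen e0_mem
      have hp0 : ∀ w, p w ≠ 0 := by
        intro w h0
        have := (generic_gen hp).ne_zero (w, (0 : Fin (m + 5)))
        exact this (by rw [h0]; rfl)
      -- at a vertex outside the image only one edge is present
      have key : ∀ x y : Fin n, x ≠ y → (¬ ∃ a, f a = x) → ∀ Ω : Fin n → Fin n → ℝ,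
          Stress p (insert s(x, y) (Sym2.map f '' (TG m).edgeSet \ {Sym2.map f e0})) Ω →
          Ω x y = 0 := by
        intro x y hxy hx Ω hΩ
        have h1 : ∑ j, Ω x j • p j = Ω x y • p y := by
          apply Finset.sum_eq_single y
          · intro j _ hj
            rw [hΩ.supp, zero_smul]
            rintro (h2 | ⟨⟨w, _, h2⟩, _⟩)
            · rw [Sym2.eq_iff] at h2
              rcases h2 with ⟨_, h2⟩ | ⟨h2, _⟩
              · exact hj h2
              · exact hxy h2
            · induction w with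
              | _ a b =>
                simp only [Sym2.map_mk, Sym2.eq_iff] at h2
                rcases h2 with ⟨h2, _⟩ | ⟨_, h2⟩
                · exact hx ⟨a, h2⟩
                · exact hx ⟨b, h2⟩
          · simp
        rw [hΩ.bal] at h1
        rcases smul_eq_zero.1 h1.symm with h2 | h2
        · exact h2
        · exact absurd h2 (hp0 y)
      intro Ω hΩ
      have h0 : Ω u v = 0 := by
        by_cases hu : ∃ a, f a = u
        · have hv : ¬ ∃ b, f b = v := by
            rintro ⟨b, hb⟩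
            obtain ⟨a, ha⟩ := hu
            exact hr ⟨a, b, ha, hb⟩
          rw [hΩ.skew, neg_eq_zero]
          refine key v u (Ne.symm he) hv Ω ?_
          rw [Sym2.eq_swap]
          exact hΩ
        · exact key u v he hu Ω hΩ
      refine hbase Ω ((hΩ.diff h0).mono ?_)
      rintro x ⟨h1, h2⟩
      rcases h1 with h1 | h1
      · exact absurd h1 h2
      · exact h1

lemma tri_card (f : TV m ↪ Fin n) :
    m ^ 2 + 14 * m + 39 ≤ (Sym2.map f '' (TG m).edgeSet).ncard := by
  classical
  rw [Set.ncard_image_of_injective _ (Sym2.map.injective f.injective)]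
  set φ : (TJ m × Fin 3) ⊕ (TJ m × (Fin 3 ⊕ Fin m)) ⊕ (Fin 3 × (Fin 3 ⊕ Fin m)) → Sym2 (TV m) :=
    fun z => match z with
      | .inl (i, j) => s(.inl i, .inr (.inl j))
      | .inr (.inl (i, k)) => s(.inl i, .inr (.inr k))
      | .inr (.inr (j, k)) => s(.inr (.inl j), .inr (.inr k)) with hφ
  have hinj : Function.Injective φ := by
    rintro (⟨i, j⟩ | ⟨i, k⟩ | ⟨j, k⟩) (⟨i', j'⟩ | ⟨i', k'⟩ | ⟨j', k'⟩) h <;>
      simp [hφ] at h <;> simp [h]
  have hsub : Set.range φ ⊆ (TG m).edgeSet := by
    rintro _ ⟨(⟨i, j⟩ | ⟨i, k⟩ | ⟨j, k⟩), rfl⟩ <;> simp only [hφ] <;> rw [mem_TG] <;> simp [part]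
  have h1 := Set.ncard_le_ncard hsub (Set.toFinite _)
  rw [← Set.image_univ, Set.ncard_image_of_injective _ hinj, Set.ncard_univ,
    Nat.card_eq_fintype_card] at h1
  simp only [Fintype.card_prod, Fintype.card_sum, Fintype.card_fin] at h1
  refine le_trans (le_of_eq ?_) h1
  ring

lemma tri_not_family (f : TV m ↪ Fin n) :
    Sym2.map f '' (TG m).edgeSet ∉ coneFamily (m + 5) n := by
  intro hmem
  obtain ⟨m', k, hmk, g, hg⟩ := family_form hmem
  have hmemF : ∀ x y, s(f x, f y) ∈ Sym2.map f '' (TG m).edgeSet ↔ part x ≠ part y := by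
    intro x y
    rw [← mem_TG]
    constructor
    · rintro ⟨e, he, h⟩
      have : e = s(x, y) := Sym2.map.injective f.injective (by simpa using h)
      exact this ▸ he
    · intro h
      exact ⟨_, h, by simp⟩
  have hmemG : ∀ x y, s(g x, g y) ∈ Sym2.map g '' (joinCone (completeBipartiteGraph
      (Option (Fin m')) (Option (Fin m'))) (Fin k)).edgeSet ↔ (joinCone (completeBipartiteGraph
      (Option (Fin m')) (Option (Fin m'))) (Fin k)).Adj x y := by
    intro x y
    rw [← SimpleGraph.mem_edgeSet]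
    constructor
    · rintro ⟨e, he, h⟩
      have : e = s(x, y) := Sym2.map.injective g.injective (by simpa using h)
      exact this ▸ he
    · intro h
      exact ⟨_, h, by simp⟩
  -- every vertex of the first graph is a vertex of the second one
  have hvert : ∀ x : TV m, ∃ w, g w = f x := by
    intro x
    obtain ⟨y, hy⟩ : ∃ y : TV m, part x ≠ part y := by
      rcases x with x | x | x
      · exact ⟨.inr (.inl 0), by simp [part]⟩
      · exact ⟨.inl (.inl 0), by simp [part]⟩
      · exact ⟨.inl (.inl 0), by simp [part]⟩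
    have h1 := (hmemF x y).2 hy
    rw [hg] at h1
    obtain ⟨e, _, h⟩ := h1
    induction e with
    | _ a b =>
      simp only [Sym2.map_mk, Sym2.eq_iff] at h
      rcases h with ⟨h, _⟩ | ⟨_, h⟩
      · exact ⟨a, h⟩
      · exact ⟨b, h⟩
  choose w hw using hvert
  have hadj : ∀ x y, (joinCone (completeBipartiteGraph
      (Option (Fin m')) (Option (Fin m'))) (Fin k)).Adj (w x) (w y) ↔ part x ≠ part y := by
    intro x y
    rw [← hmemG, ← hmemF, hw, hw, hg]
  have hwinj : ∀ x y, w x = w y → x = y := by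
    intro x y h
    apply f.injective
    rw [← hw, ← hw, h]
  -- the side of each representative
  have hside : ∀ t : Fin 3, (∃ a, w (rep m t).1 = .inl (.inl a)) ∨
      (∃ a, w (rep m t).1 = .inl (.inr a)) := by
    intro t
    have h1 : ¬ (joinCone (completeBipartiteGraph
      (Option (Fin m')) (Option (Fin m'))) (Fin k)).Adj (w (rep m t).1) (w (rep m t).2) := by
      rw [hadj, not_not]
      fin_cases t <;> rfl
    have h2 : w (rep m t).1 ≠ w (rep m t).2 := fun h => rep_ne m t (hwinj _ _ h)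
    rcases hx : w (rep m t).1 with (a | a) | a
    · exact Or.inl ⟨a, rfl⟩
    · exact Or.inr ⟨a, rfl⟩
    · exfalso
      rw [hx] at h1 h2
      rcases hy : w (rep m t).2 with b | b
      · rw [hy] at h1
        exact h1 trivial
      · rw [hy] at h1 h2
        exact h1 (fun h => h2 (congrArg Sum.inr h))
  have hpart : ∀ t t' : Fin 3, t ≠ t' → part (rep m t).1 ≠ part (rep m t').1 := by
    intro t t' h
    fin_cases t <;> fin_cases t' <;> simp [rep, part] at h ⊢
  have hA : ∀ t t', t ≠ t' → (∃ a, w (rep m t).1 = .inl (.inl a)) →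
      (∃ a, w (rep m t').1 = .inl (.inl a)) → False := by
    rintro t t' htt ⟨a, ha⟩ ⟨b, hb⟩
    have := (hadj (rep m t).1 (rep m t').1).2 (hpart t t' htt)
    rw [ha, hb] at this
    simp [joinCone] at this
  have hB : ∀ t t', t ≠ t' → (∃ a, w (rep m t).1 = .inl (.inr a)) →
      (∃ a, w (rep m t').1 = .inl (.inr a)) → False := by
    rintro t t' htt ⟨a, ha⟩ ⟨b, hb⟩
    have := (hadj (rep m t).1 (rep m t').1).2 (hpart t t' htt)
    rw [ha, hb] at this
    simp [joinCone] at this
  rcases hside 0 with h0 | h0 <;> rcases hside 1 with h1 | h1 <;> rcases hside 2 with h2 | h2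
  · exact hA 0 1 (by decide) h0 h1
  · exact hA 0 1 (by decide) h0 h1
  · exact hA 0 2 (by decide) h0 h2
  · exact hB 1 2 (by decide) h1 h2
  · exact hA 1 2 (by decide) h1 h2
  · exact hB 0 2 (by decide) h0 h2
  · exact hB 0 1 (by decide) h0 h1
  · exact hB 0 1 (by decide) h0 h1

end tri

theorem main (d n : ℕ) (hd : 5 ≤ d) (hn : 2 * d + 1 ≤ n) (p : Fin n → Fin d → ℝ)
    (hp : Generic p) :
    (∃ M, IsMaximalX (EK n) (coneFamily d n) M ∧ M ≠ hypMatroid p) ∧
    ∃ F ⊆ EK n, ∃ r : ℕ, (hypMatroid p).eRk F = r ∧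
      IsLeast (valSet (coneFamily d n) F) ((r : ℤ) + 1) := by
  obtain ⟨m, rfl⟩ : ∃ m, d = m + 5 := ⟨d - 5, by omega⟩
  have hcard : Fintype.card (TV m) ≤ Fintype.card (Fin n) := by
    simp only [Fintype.card_sum, Fintype.card_fin]
    omega
  obtain ⟨f⟩ : Nonempty (TV m ↪ Fin n) := Function.Embedding.nonempty_of_card_le hcard
  have hX : ∀ C ∈ coneFamily (m + 5) n, (hypMatroid p).IsCircuit C :=
    fun C hC => family_circuit hp hC
  have hF := tri_circuit hp f
  have hflat : ∀ e ∈ (hypMatroid p).E, e ∉ Sym2.map f '' (TG m).edgeSet →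
      ∃ g ∈ Sym2.map f '' (TG m).edgeSet,
        (hypMatroid p).Indep (insert e (Sym2.map f '' (TG m).edgeSet \ {g})) :=
    fun e he heF => tri_flat hp f e he heF
  refine ⟨?_, Sym2.map f '' (TG m).edgeSet, image_subset_EK f _, ?_⟩
  · refine max_part (hypMatroid p) (coneFamily (m + 5) n) hX _ hF (tri_not_family f) hflat ?_
    intro C hC
    have h1 := family_card hC
    have h2 := tri_card f
    nlinarith
  · exact val_part (hypMatroid p) (coneFamily (m + 5) n) hX _ hF (tri_not_family f) hflat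

end Pool.Agent.HypC
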