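import Mathlib

/-!
Stress description of independence in linear matroids of hyperconnectivity type.
-/

set_option autoImplicit false

namespace Pool.Agent.HypC

open Finset

variable {V W J : Type*}

/-- A skew matrix supported on `I` and orthogonal to the points `q`. -/
structure Stress [Fintype V] (q : V → J → ℝ) (I : Set (Sym2 V)) (Ω : V → V → ℝ) : Prop where
  skew : ∀ i j, Ω i j = - Ω j i
  supp : ∀ i j, s(i, j) ∉ I → Ω i j = 0
  bal : ∀ i, ∑ j, Ω i j • q j = 0

/-- Only the zero matrix is a stress. -/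
def IndepAt [Fintype V] (q : V → J → ℝ) (I : Set (Sym2 V)) : Prop :=
  ∀ Ω, Stress q I Ω → ∀ i j, Ω i j = 0

lemma Stress.diag [Fintype V] {q : V → J → ℝ} {I : Set (Sym2 V)} {Ω : V → V → ℝ}
    (h : Stress q I Ω) (i : V) : Ω i i = 0 := by
  have := h.skew i i
  linarith

lemma Stress.mono [Fintype V] {q : V → J → ℝ} {I I' : Set (Sym2 V)} {Ω : V → V → ℝ}
    (h : Stress q I Ω) (hI : I ⊆ I') : Stress q I' Ω :=
  ⟨h.skew, fun i j hij => h.supp i j (fun h' => hij (hI h')), h.bal⟩

lemma IndepAt.mono [Fintype V] {q : V → J → ℝ} {I I' : Set (Sym2 V)}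
    (h : IndepAt q I') (hI : I ⊆ I') : IndepAt q I :=
  fun Ω hΩ => h Ω (hΩ.mono hI)

lemma Stress.diff [Fintype V] {q : V → J → ℝ} {I : Set (Sym2 V)} {Ω : V → V → ℝ}
    (h : Stress q I Ω) {a b : V} (hab : Ω a b = 0) : Stress q (I \ {s(a, b)}) Ω := by
  refine ⟨h.skew, fun i j hij => ?_, h.bal⟩
  by_cases h1 : s(i, j) = s(a, b)
  · rw [Sym2.eq_iff] at h1
    rcases h1 with ⟨rfl, rfl⟩ | ⟨rfl, rfl⟩
    · exact hab
    · rw [h.skew, hab, neg_zero]
  · exact h.supp i j (fun h2 => hij ⟨h2, h1⟩)

/-- coordinatewise balance -/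
lemma Stress.bal' [Fintype V] {q : V → J → ℝ} {I : Set (Sym2 V)} {Ω : V → V → ℝ}
    (h : Stress q I Ω) (i : V) (c : J) : ∑ j, Ω i j * q j c = 0 := by
  have := congrFun (h.bal i) c
  simpa using this

/-- reindexing the coordinates -/
lemma indepAt_reindex [Fintype V] {J' : Type*} (e : J' ≃ J) (q : V → J → ℝ) (I : Set (Sym2 V)) :
    IndepAt (fun v => q v ∘ e) I ↔ IndepAt q I := by
  constructor
  · intro h Ω hΩ
    refine h Ω ⟨hΩ.skew, hΩ.supp, fun i => ?_⟩
    funext c
    simpa using hΩ.bal' i (e c)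
  · intro h Ω hΩ
    refine h Ω ⟨hΩ.skew, hΩ.supp, fun i => ?_⟩
    funext c
    have := hΩ.bal' i (e.symm c)
    simpa using this

/-- pulling back along an injection of vertices -/
lemma indepAt_image [Fintype V] [Fintype W] (f : W ↪ V) (p : V → J → ℝ) (I : Set (Sym2 W)) :
    IndepAt p (Sym2.map f '' I) ↔ IndepAt (p ∘ f) I := by
  classical
  have hmem : ∀ x y, s(f x, f y) ∈ Sym2.map f '' I ↔ s(x, y) ∈ I := by
    intro x y
    constructor
    · rintro ⟨e, he, h⟩
      have : e = s(x, y) := Sym2.map.injective f.injective (by simpa using h)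
      exact this ▸ he
    · intro h
      exact ⟨_, h, by simp⟩
  have hran : ∀ u v, s(u, v) ∈ Sym2.map f '' I → ∃ x y, f x = u ∧ f y = v := by
    rintro u v ⟨e, he, h⟩
    induction e with
    | _ x y =>
      simp only [Sym2.map_mk, Sym2.eq_iff] at h
      rcases h with ⟨h1, h2⟩ | ⟨h1, h2⟩
      · exact ⟨x, y, h1, h2⟩
      · exact ⟨y, x, h2, h1⟩
  constructor
  · intro h Ω hΩ
    set Ω' : V → V → ℝ := fun u v => if h : ∃ z : W × W, f z.1 = u ∧ f z.2 = v then
      Ω h.choose.1 h.choose.2 else 0 with hΩ'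
    have hval : ∀ x y, Ω' (f x) (f y) = Ω x y := by
      intro x y
      have hex : ∃ z : W × W, f z.1 = f x ∧ f z.2 = f y := ⟨(x, y), rfl, rfl⟩
      rw [hΩ']
      simp only [dif_pos hex]
      have h1 := hex.choose_spec
      rw [f.injective h1.1, f.injective h1.2]
    have hzero : ∀ u v, (¬ ∃ x y, f x = u ∧ f y = v) → Ω' u v = 0 := by
      intro u v h1
      have h2 : ¬ ∃ z : W × W, f z.1 = u ∧ f z.2 = v := by
        rintro ⟨z, h3, h4⟩
        exact h1 ⟨z.1, z.2, h3, h4⟩
      rw [hΩ']
      simp only [dif_neg h2]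
    have hst : Stress p (Sym2.map f '' I) Ω' := by
      refine ⟨fun u v => ?_, fun u v huv => ?_, fun u => ?_⟩
      · by_cases h1 : ∃ x y, f x = u ∧ f y = v
        · obtain ⟨x, y, rfl, rfl⟩ := h1
          rw [hval, hval, hΩ.skew]
        · have h2 : ¬ ∃ x y, f x = v ∧ f y = u := by
            rintro ⟨x, y, h3, h4⟩
            exact h1 ⟨y, x, h4, h3⟩
          rw [hzero _ _ h1, hzero _ _ h2, neg_zero]
      · by_cases h1 : ∃ x y, f x = u ∧ f y = v
        · obtain ⟨x, y, rfl, rfl⟩ := h1
          rw [hval]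
          exact hΩ.supp x y (fun h3 => huv ((hmem x y).2 h3))
        · exact hzero _ _ h1
      · by_cases h1 : ∃ x, f x = u
        · obtain ⟨x, rfl⟩ := h1
          have h2 : ∑ v, Ω' (f x) v • p v = ∑ y, Ω' (f x) (f y) • p (f y) := by
            rw [← Finset.sum_map univ f (fun v => Ω' (f x) v • p v)]
            symm
            apply Finset.sum_subset (Finset.subset_univ _)
            intro v _ hv
            rw [hzero, zero_smul]
            rintro ⟨x', y', _, h4⟩
            exact hv (by simp [← h4])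
          rw [h2]
          simp only [hval]
          exact hΩ.bal x
        · apply Finset.sum_eq_zero
          intro v _
          rw [hzero, zero_smul]
          rintro ⟨x', y', h3, _⟩
          exact h1 ⟨x', h3⟩
    intro x y
    rw [← hval]
    exact h Ω' hst _ _
  · intro h Ω hΩ
    have hst : Stress (p ∘ f) I (fun x y => Ω (f x) (f y)) := by
      refine ⟨fun x y => hΩ.skew _ _, fun x y hxy => hΩ.supp _ _ (fun h1 => hxy ((hmem x y).1 h1)),
        fun x => ?_⟩
      have h2 : ∑ v, Ω (f x) v • p v = ∑ y, Ω (f x) (f y) • p (f y) := by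
        rw [← Finset.sum_map univ f (fun v => Ω (f x) v • p v)]
        symm
        apply Finset.sum_subset (Finset.subset_univ _)
        intro v _ hv
        rw [hΩ.supp, zero_smul]
        intro h3
        obtain ⟨x', y', _, h4⟩ := hran _ _ h3
        exact hv (by simp [← h4])
      simp only [Function.comp]
      rw [← h2]
      exact hΩ.bal _
    intro u v
    by_cases h1 : s(u, v) ∈ Sym2.map f '' I
    · obtain ⟨x, y, rfl, rfl⟩ := hran u v h1
      exact h _ hst x y
    · exact hΩ.supp u v h1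

/-- pairing a stress with a motion -/
lemma pairing [Fintype V] [Fintype J] {q : V → J → ℝ} {I : Set (Sym2 V)} {Ω : V → V → ℝ}
    (h : Stress q I Ω) (m : V → J → ℝ) {a b : V} (hab : a ≠ b)
    (hm : ∀ i j, s(i, j) ∈ I → s(i, j) ≠ s(a, b) → ∑ c, q j c * m i c = ∑ c, q i c * m j c)
    (hne : ∑ c, q b c * m a c ≠ ∑ c, q a c * m b c) : Ω a b = 0 := by
  classical
  set D : V → V → ℝ := fun i j => ∑ c, q j c * m i c with hD
  have h1 : ∑ i, ∑ j, Ω i j * D i j = 0 := by
    apply Finset.sum_eq_zero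
    intro i _
    have : ∑ j, Ω i j * D i j = ∑ c, (∑ j, Ω i j * q j c) * m i c := by
      simp only [hD, Finset.mul_sum, Finset.sum_mul]
      rw [Finset.sum_comm]
      refine Finset.sum_congr rfl fun c _ => Finset.sum_congr rfl fun j _ => by ring
    rw [this]
    apply Finset.sum_eq_zero
    intro c _
    rw [h.bal' i c, zero_mul]
  have h2 : ∑ i, ∑ j, Ω i j * D j i = 0 := by
    rw [Finset.sum_comm]
    have : ∑ j, ∑ i, Ω i j * D j i = - ∑ j, ∑ i, Ω j i * D j i := by
      rw [← Finset.sum_neg_distrib]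
      refine Finset.sum_congr rfl fun j _ => ?_
      rw [← Finset.sum_neg_distrib]
      refine Finset.sum_congr rfl fun i _ => ?_
      rw [h.skew i j]; ring
    rw [this, h1, neg_zero]
  have h3 : ∑ i, ∑ j, Ω i j * (D i j - D j i) = 0 := by
    simp only [mul_sub, Finset.sum_sub_distrib]
    rw [h1, h2, sub_zero]
  have h4 : ∀ i j, ¬ ((i = a ∧ j = b) ∨ (i = b ∧ j = a)) → Ω i j * (D i j - D j i) = 0 := by
    intro i j hij
    by_cases h5 : s(i, j) ∈ I
    · have h6 : s(i, j) ≠ s(a, b) := by
        rw [Ne, Sym2.eq_iff]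
        exact hij
      have h7 : D i j = D j i := hm i j h5 h6
      rw [h7, sub_self, mul_zero]
    · rw [h.supp i j h5, zero_mul]
  have h5 : ∑ i, ∑ j, Ω i j * (D i j - D j i)
      = Ω a b * (D a b - D b a) + Ω b a * (D b a - D a b) := by
    rw [← Finset.add_sum_erase univ _ (Finset.mem_univ a)]
    have hb : b ∈ univ.erase a := by simp [hab.symm]
    rw [← Finset.add_sum_erase _ _ hb]
    have e1 : ∑ j, Ω a j * (D a j - D j a) = Ω a b * (D a b - D b a) := by
      rw [Finset.sum_eq_single b]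
      · intro j _ hj
        apply h4
        rintro (⟨_, h⟩ | ⟨h, _⟩)
        · exact hj h
        · exact hab h
      · simp
    have e2 : ∑ j, Ω b j * (D b j - D j b) = Ω b a * (D b a - D a b) := by
      rw [Finset.sum_eq_single a]
      · intro j _ hj
        apply h4
        rintro (⟨h, _⟩ | ⟨_, h⟩)
        · exact hab h.symm
        · exact hj h
      · simp
    have e3 : ∑ x ∈ (univ.erase a).erase b, ∑ j, Ω x j * (D x j - D j x) = 0 := by
      apply Finset.sum_eq_zero
      intro x hx
      apply Finset.sum_eq_zero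
      intro j _
      apply h4
      simp only [Finset.mem_erase] at hx
      rintro (⟨h, _⟩ | ⟨h, _⟩)
      · exact hx.2.1 h
      · exact hx.1 h
    rw [e1, e2, e3, add_zero]
  rw [h3, h.skew b a] at h5
  have h6 : Ω a b * (2 * (D a b - D b a)) = 0 := by linarith
  rcases mul_eq_zero.1 h6 with h7 | h7
  · exact h7
  · exfalso
    apply hne
    have : D a b = D b a := by linarith
    exact this

end Pool.Agent.HypC
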