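import Pool.Agent.HypC.Cone

/-!
The complete tripartite graph with parts of sizes `d`, `3`, `d - 2` (with `d = m + 5`).
-/

set_option autoImplicit false

namespace Pool.Agent.HypC

open Finset

variable (m : ℕ)

/-- coordinates -/
abbrev TJ := Fin 5 ⊕ Fin m

/-- vertices -/
abbrev TV := (Fin 5 ⊕ Fin m) ⊕ (Fin 3 ⊕ (Fin 3 ⊕ Fin m))

variable {m}

def part : TV m → Fin 3
  | .inl _ => 0
  | .inr (.inl _) => 1
  | .inr (.inr _) => 2

variable (m)

/-- the complete tripartite graph -/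
def TG : SimpleGraph (TV m) := (⊤ : SimpleGraph (Fin 3)).comap part

lemma mem_TG (x y : TV m) : s(x, y) ∈ (TG m).edgeSet ↔ part x ≠ part y := by
  rw [SimpleGraph.mem_edgeSet]
  simp [TG]

def bB : TJ m → Fin 3
  | .inl i => ![0, 1, 1, 2, 2] i
  | .inr _ => 2

def bC : TJ m → Fin 3 ⊕ Fin m
  | .inl i => .inl (![0, 0, 1, 1, 2] i)
  | .inr x => .inr x

/-- special position -/
def tq : TV m → TJ m → ℝ
  | .inl i => fun c => if c = i then 1 else 0
  | .inr (.inl j) => fun c => if bB m c = j then 1 else 0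
  | .inr (.inr k) => fun c => if bC m c = k then 1 else 0

lemma tsum (γ : TV m → ℝ) (c : TJ m) : ∑ v, γ v * tq m v c =
    γ (.inl c) + γ (.inr (.inl (bB m c))) + γ (.inr (.inr (bC m c))) := by
  rw [Fintype.sum_sum_type (f := fun v => γ v * tq m v c),
    Fintype.sum_sum_type (f := fun v => γ (.inr v) * tq m (.inr v) c)]
  simp only [tq, mul_ite, mul_one, mul_zero, Finset.sum_ite_eq, Finset.mem_univ, if_true]
  ring

lemma tri_stress (Ω : TV m → TV m → ℝ) (hΩ : Stress (tq m) (TG m).edgeSet Ω) :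
    ∃ lam : ℝ, (∀ j k, Ω (.inr (.inl j)) (.inr (.inr k)) = lam) ∧
      (∀ i j, Ω (.inl i) (.inr (.inl j)) = lam) ∧
      (∀ i k, Ω (.inl i) (.inr (.inr k)) = - lam) := by
  have hb : ∀ u c, Ω u (.inl c) + Ω u (.inr (.inl (bB m c))) + Ω u (.inr (.inr (bC m c))) = 0 := by
    intro u c
    rw [← tsum]
    exact hΩ.bal' u c
  have hz : ∀ u v, part u = part v → Ω u v = 0 := by
    intro u v huv
    apply hΩ.supp
    rw [mem_TG]
    simpa using huv
  have h1 : ∀ i j, Ω (.inl i) (.inr (.inl j)) = Ω (.inr (.inl j)) (.inr (.inr (bC m i))) := by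
    intro i j
    have := hb (.inr (.inl j)) i
    rw [hz (.inr (.inl j)) (.inr (.inl (bB m i))) rfl] at this
    rw [hΩ.skew]
    linarith
  have h2 : ∀ i k, Ω (.inl i) (.inr (.inr k)) = - Ω (.inr (.inl (bB m i))) (.inr (.inr k)) := by
    intro i k
    have := hb (.inr (.inr k)) i
    rw [hz (.inr (.inr k)) (.inr (.inr (bC m i))) rfl,
      hΩ.skew (.inr (.inr k)) (.inr (.inl (bB m i)))] at this
    rw [hΩ.skew]
    linarith
  have h3 : ∀ i i', Ω (.inr (.inl (bB m i'))) (.inr (.inr (bC m i))) =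
      Ω (.inr (.inl (bB m i))) (.inr (.inr (bC m i'))) := by
    intro i i'
    have := hb (.inl i) i'
    rw [hz (.inl i) (.inl i') rfl, h1, h2] at this
    linarith
  set Z : Fin 3 → (Fin 3 ⊕ Fin m) → ℝ := fun j k => Ω (.inr (.inl j)) (.inr (.inr k)) with hZ
  have r : ∀ a b : Fin 5, Z (![0, 1, 1, 2, 2] b) (.inl (![0, 0, 1, 1, 2] a)) =
      Z (![0, 1, 1, 2, 2] a) (.inl (![0, 0, 1, 1, 2] b)) := fun a b => h3 (.inl a) (.inl b)
  have r' : ∀ (a : Fin 5) (x : Fin m), Z 2 (.inl (![0, 0, 1, 1, 2] a)) =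
      Z (![0, 1, 1, 2, 2] a) (.inr x) := fun a x => h3 (.inl a) (.inr x)
  have a1 : Z 1 (.inl 0) = Z 0 (.inl 0) := by simpa using r 0 1
  have a2 : Z 1 (.inl 0) = Z 0 (.inl 1) := by simpa using r 0 2
  have a3 : Z 1 (.inl 0) = Z 1 (.inl 1) := by simpa using r 1 2
  have a4 : Z 2 (.inl 0) = Z 0 (.inl 1) := by simpa using r 0 3
  have a5 : Z 2 (.inl 1) = Z 1 (.inl 1) := by simpa using r 2 3
  have a6 : Z 2 (.inl 0) = Z 0 (.inl 2) := by simpa using r 0 4
  have a7 : Z 2 (.inl 0) = Z 1 (.inl 2) := by simpa using r 1 4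
  have a8 : Z 2 (.inl 1) = Z 2 (.inl 2) := by simpa using r 3 4
  have b1 : ∀ x, Z 2 (.inl 0) = Z 0 (.inr x) := fun x => by simpa using r' 0 x
  have b2 : ∀ x, Z 2 (.inl 0) = Z 1 (.inr x) := fun x => by simpa using r' 1 x
  have b3 : ∀ x, Z 2 (.inl 1) = Z 2 (.inr x) := fun x => by simpa using r' 3 x
  have hall : ∀ j k, Z j k = Z 0 (.inl 0) := by
    intro j k
    rcases k with k | x
    · fin_cases j <;> fin_cases k <;> simp <;> linarith
    · have := b1 x
      have := b2 x
      have := b3 x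
      fin_cases j <;> simp <;> linarith
  refine ⟨Z 0 (.inl 0), hall, fun i j => ?_, fun i k => ?_⟩
  · rw [h1]; exact hall _ _
  · rw [h2, neg_inj]; exact hall _ _

theorem tri_indep_special {f : Sym2 (TV m)} (hf : f ∈ (TG m).edgeSet) :
    IndepAt (tq m) ((TG m).edgeSet \ {f}) := by
  induction f with
  | _ a b =>
    intro Ω hΩ
    have hΩ' := hΩ.mono (I' := (TG m).edgeSet) Set.sdiff_subset
    obtain ⟨lam, h1, h2, h3⟩ := tri_stress m Ω hΩ'
    have h0 : Ω a b = 0 := hΩ.supp a b (by simp)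
    rw [mem_TG] at hf
    have hz : ∀ u v, part u = part v → Ω u v = 0 := by
      intro u v huv
      apply hΩ'.supp
      rw [mem_TG]
      simpa using huv
    have h1' : ∀ j k, Ω (.inr (.inr k)) (.inr (.inl j)) = - lam := fun j k => by
      rw [hΩ.skew, h1]
    have h2' : ∀ i j, Ω (.inr (.inl j)) (.inl i) = - lam := fun j k => by
      rw [hΩ.skew, h2]
    have h3' : ∀ i k, Ω (.inr (.inr k)) (.inl i) = lam := fun j k => by
      rw [hΩ.skew, h3, neg_neg]
    have hlam : lam = 0 := by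
      rcases a with i | j | k <;> rcases b with i' | j' | k'
      · exact absurd rfl hf
      · rw [h2] at h0; exact h0
      · rw [h3] at h0; linarith
      · rw [h2'] at h0; linarith
      · exact absurd rfl hf
      · rw [h1] at h0; exact h0
      · rw [h3'] at h0; exact h0
      · rw [h1'] at h0; linarith
      · exact absurd rfl hf
    subst hlam
    intro u v
    rcases u with i | j | k <;> rcases v with i' | j' | k'
    · exact hz _ _ rfl
    · exact h2 _ _
    · rw [h3, neg_zero]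
    · rw [h2', neg_zero]
    · exact hz _ _ rfl
    · exact h1 _ _
    · exact h3' _ _
    · rw [h1', neg_zero]
    · exact hz _ _ rfl

/-- the nontrivial motion -/
def mA : Fin 5 → Fin 5 → ℝ :=
  ![![0, 0, 1, -1, 0], ![0, 0, -1, 0, 1], ![0, 0, 0, 1, -1], ![0, 0, 0, 0, 0], ![0, 0, 0, 0, 0]]

def mJ : TJ m → TJ m → ℝ
  | .inl a, .inl b => mA a b
  | _, _ => 0

def tm : TV m → TJ m → ℝ
  | .inl i => fun c => mJ m i c
  | .inr w => fun c => ∑ c', mJ m c c' * tq m (.inr w) c'

lemma tm_inr (w w' : Fin 3 ⊕ (Fin 3 ⊕ Fin m)) :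
    ∑ c, tq m (.inr w') c * tm m (.inr w) c =
      ∑ a : Fin 5, ∑ b : Fin 5, tq m (.inr w') (.inl a) * mA a b * tq m (.inr w) (.inl b) := by
  rw [Fintype.sum_sum_type]
  have h2 : ∑ x : Fin m, tq m (.inr w') (.inr x) * tm m (.inr w) (.inr x) = 0 := by
    apply Finset.sum_eq_zero
    intro x _
    simp [tm, mJ]
  rw [h2, add_zero]
  refine Finset.sum_congr rfl fun a _ => ?_
  simp only [tm]
  rw [Fintype.sum_sum_type]
  simp only [mJ, zero_mul, Finset.sum_const_zero, add_zero, Finset.mul_sum]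
  exact Finset.sum_congr rfl fun b _ => by ring

lemma tm_motion (i j : TV m) (h : part i ≠ part j) :
    ∑ c, tq m j c * tm m i c = ∑ c, tq m i c * tm m j c := by
  have key : ∀ (i : TJ m) (w : Fin 3 ⊕ (Fin 3 ⊕ Fin m)),
      ∑ c, tq m (.inr w) c * tm m (.inl i) c = ∑ c, tq m (.inl i) c * tm m (.inr w) c := by
    intro i w
    have h1 : ∑ c, tq m (.inl i) c * tm m (.inr w) c = tm m (.inr w) i := by
      simp [tq]
    rw [h1]
    simp only [tm]
    exact Finset.sum_congr rfl fun c _ => by ring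
  have key2 : ∀ (j : Fin 3) (k : Fin 3 ⊕ Fin m),
      ∑ c, tq m (.inr (.inr k)) c * tm m (.inr (.inl j)) c =
        ∑ c, tq m (.inr (.inl j)) c * tm m (.inr (.inr k)) c := by
    intro j k
    rw [tm_inr, tm_inr]
    rcases k with k | x
    · fin_cases j <;> fin_cases k <;>
        simp [Fin.sum_univ_succ, tq, bB, bC, mA]
    · simp [tq, bC]
  rcases i with i | j' | k <;> rcases j with i' | j'' | k'
  · exact absurd rfl h
  · exact key _ _
  · exact key _ _
  · exact (key _ _).symm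
  · exact absurd rfl h
  · exact key2 _ _
  · exact (key _ _).symm
  · exact (key2 _ _).symm
  · exact absurd rfl h

lemma tri_insert_special {f : Sym2 (TV m)} (hf : f ∈ (TG m).edgeSet) (a b : TV m) (hab : a ≠ b)
    (hne : ∑ c, tq m b c * tm m a c ≠ ∑ c, tq m a c * tm m b c) :
    IndepAt (tq m) (insert s(a, b) ((TG m).edgeSet \ {f})) := by
  intro Ω hΩ
  have h0 : Ω a b = 0 := by
    refine pairing hΩ (tm m) hab ?_ hne
    intro i j hij hij'
    apply tm_motion
    rcases hij with h | h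
    · exact absurd h hij'
    · exact (mem_TG m i j).1 h.1
  have h1 : Stress (tq m) ((TG m).edgeSet \ {f}) Ω := by
    have := hΩ.diff h0
    refine this.mono ?_
    rintro x ⟨h1, h2⟩
    rcases h1 with h1 | h1
    · exact absurd h1 h2
    · exact h1
  exact tri_indep_special m hf Ω h1

/-- representatives of the three kinds of non-edges -/
def rep : Fin 3 → TV m × TV m
  | 0 => (.inl (.inl 0), .inl (.inl 2))
  | 1 => (.inr (.inl 0), .inr (.inl 1))
  | 2 => (.inr (.inr (.inl 0)), .inr (.inr (.inl 1)))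

lemma rep_ne (t : Fin 3) : (rep m t).1 ≠ (rep m t).2 := by
  fin_cases t <;> simp [rep]

lemma rep_hne (t : Fin 3) : ∑ c, tq m (rep m t).2 c * tm m (rep m t).1 c ≠
    ∑ c, tq m (rep m t).1 c * tm m (rep m t).2 c := by
  fin_cases t
  · simp only [rep]
    simp [tq, tm, mJ, mA]
  · simp only [rep]
    rw [tm_inr, tm_inr]
    simp [Fin.sum_univ_succ, tq, bB, mA]
  · simp only [rep]
    rw [tm_inr, tm_inr]
    simp [Fin.sum_univ_succ, tq, bC, mA]

end Pool.Agent.HypC
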