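import Pool.Agent.HypC.Tri

/-!
The complete tripartite graph at generic points: it is a circuit and a flat.
-/

set_option autoImplicit false

namespace Pool.Agent.HypC

open Finset

variable {m : ℕ}

theorem tri_indep {p : TV m → TJ m → ℝ} (hp : Gen p) {f : Sym2 (TV m)}
    (hf : f ∈ (TG m).edgeSet) : IndepAt p ((TG m).edgeSet \ {f}) :=
  (tri_indep_special m hf).of_point hp

lemma exists_perm {X : Type*} [DecidableEq X] {x y a b : X} (hxy : x ≠ y) (hab : a ≠ b) :
    ∃ σ : Equiv.Perm X, σ x = a ∧ σ y = b := by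
  refine ⟨Equiv.swap (Equiv.swap x a y) b * Equiv.swap x a, ?_, ?_⟩
  · rw [Equiv.Perm.mul_apply, Equiv.swap_apply_left]
    apply Equiv.swap_apply_of_ne_of_ne
    · intro h
      apply hxy
      apply (Equiv.swap x a).injective
      rw [Equiv.swap_apply_left]
      exact h
    · exact hab
  · rw [Equiv.Perm.mul_apply, Equiv.swap_apply_left]

lemma exists_tau (a b : TV m) (hab : a ≠ b) (hpart : part a = part b) :
    ∃ (t : Fin 3) (τ : Equiv.Perm (TV m)), (∀ v, part (τ v) = part v) ∧
      τ (rep m t).1 = a ∧ τ (rep m t).2 = b := by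
  rcases a with a | a | a <;> rcases b with b | b | b
  · obtain ⟨σ, h1, h2⟩ := exists_perm (x := (.inl 0 : Fin 5 ⊕ Fin m)) (y := .inl 2) (by simp)
      (fun h => hab (congrArg Sum.inl h))
    refine ⟨0, Equiv.sumCongr σ (Equiv.refl _), ?_, ?_, ?_⟩
    · rintro (v | v | v) <;> rfl
    · simp [rep, h1]
    · simp [rep, h2]
  · exact absurd hpart (by simp [part])
  · exact absurd hpart (by simp [part])
  · exact absurd hpart (by simp [part])
  · obtain ⟨σ, h1, h2⟩ := exists_perm (x := (0 : Fin 3)) (y := 1) (by simp)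
      (fun h : a = b => hab (congrArg (fun z => Sum.inr (Sum.inl z)) h))
    refine ⟨1, Equiv.sumCongr (Equiv.refl _) (Equiv.sumCongr σ (Equiv.refl _)), ?_, ?_, ?_⟩
    · rintro (v | v | v) <;> rfl
    · simp [rep, h1]
    · simp [rep, h2]
  · exact absurd hpart (by simp [part])
  · exact absurd hpart (by simp [part])
  · exact absurd hpart (by simp [part])
  · obtain ⟨σ, h1, h2⟩ := exists_perm (x := (.inl 0 : Fin 3 ⊕ Fin m)) (y := .inl 1) (by simp)
      (fun h : a = b => hab (congrArg (fun z => Sum.inr (Sum.inr z)) h))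
    refine ⟨2, Equiv.sumCongr (Equiv.refl _) (Equiv.sumCongr (Equiv.refl _) σ), ?_, ?_, ?_⟩
    · rintro (v | v | v) <;> rfl
    · simp [rep, h1]
    · simp [rep, h2]

lemma tri_map (τ : Equiv.Perm (TV m)) (hτ : ∀ v, part (τ v) = part v) :
    Sym2.map τ '' (TG m).edgeSet = (TG m).edgeSet := by
  ext e
  induction e with
  | _ x y =>
    constructor
    · rintro ⟨e', he', h⟩
      induction e' with
      | _ x' y' =>
        rw [mem_TG] at he'
        rw [Sym2.map_mk] at h
        rw [← h, mem_TG, hτ, hτ]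
        exact he'
    · intro h
      rw [mem_TG] at h
      refine ⟨s(τ.symm x, τ.symm y), ?_, by simp⟩
      rw [mem_TG, ← hτ, ← hτ (τ.symm y)]
      simpa using h

theorem tri_insert {p : TV m → TJ m → ℝ} (hp : Gen p) (a b : TV m) (hab : a ≠ b)
    (hpart : part a = part b) :
    ∃ f ∈ (TG m).edgeSet, IndepAt p (insert s(a, b) ((TG m).edgeSet \ {f})) := by
  obtain ⟨t, τ, hτ, h1, h2⟩ := exists_tau a b hab hpart
  set f0 : Sym2 (TV m) := s(.inl (.inl 0), .inr (.inl 0)) with hf0
  have hf0m : f0 ∈ (TG m).edgeSet := by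
    rw [hf0, mem_TG]; simp [part]
  have hind : IndepAt (p ∘ τ) (insert s((rep m t).1, (rep m t).2) ((TG m).edgeSet \ {f0})) :=
    (tri_insert_special m hf0m _ _ (rep_ne m t) (rep_hne m t)).of_point
      (hp.comp τ.toEmbedding)
  have hind2 := (indepAt_image τ.toEmbedding p _).2 hind
  refine ⟨Sym2.map τ f0, ?_, ?_⟩
  · rw [← tri_map τ hτ]
    exact ⟨f0, hf0m, rfl⟩
  · have himg : Sym2.map τ '' (insert s((rep m t).1, (rep m t).2) ((TG m).edgeSet \ {f0})) =
        insert s(a, b) ((TG m).edgeSet \ {Sym2.map τ f0}) := by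
      rw [Set.image_insert_eq, Set.image_sdiff (Sym2.map.injective τ.injective), tri_map τ hτ,
        Set.image_singleton, Sym2.map_mk, h1, h2]
    rw [← himg]
    exact hind2

theorem tri_dep {p : TV m → TJ m → ℝ} (hp : Gen p) : ¬ IndepAt p (TG m).edgeSet := by
  classical
  intro hind
  obtain ⟨a, ⟨w, ha0⟩, ha⟩ := exists_dep (W := TV m) (J := TJ m ⊕ TJ m)
    (by simp; omega) (fun v => match v with
      | .inl i => Sum.elim (fun _ => 0) (p (.inl i))
      | .inr (.inl j) => Sum.elim (p (.inr (.inl j))) (fun _ => 0)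
      | .inr (.inr k) => Sum.elim (p (.inr (.inr k))) (fun c => - p (.inr (.inr k)) c))
  rw [Fintype.sum_sum_type, Fintype.sum_sum_type] at ha
  have e1 : ∀ c, ∑ j, a (.inr (.inl j)) * p (.inr (.inl j)) c
      + ∑ k, a (.inr (.inr k)) * p (.inr (.inr k)) c = 0 := by
    intro c
    have := congrFun ha (.inl c)
    simpa using this
  have e2 : ∀ c, ∑ i, a (.inl i) * p (.inl i) c
      - ∑ k, a (.inr (.inr k)) * p (.inr (.inr k)) c = 0 := by
    intro c
    have := congrFun ha (.inr c)
    simp at this ⊢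
    linarith
  set l1 : TV m → ℝ := fun v => match v with
    | .inl _ => 0
    | .inr (.inl j) => a (.inr (.inl j))
    | .inr (.inr k) => a (.inr (.inr k)) with hl1
  set l2 : TV m → ℝ := fun v => match v with
    | .inl i => a (.inl i)
    | .inr (.inl _) => 0
    | .inr (.inr k) => - a (.inr (.inr k)) with hl2
  have s1 : ∑ v, l1 v • p v = 0 := by
    funext c
    rw [Fintype.sum_sum_type, Fintype.sum_sum_type]
    simpa [hl1] using e1 c
  have s2 : ∑ v, l2 v • p v = 0 := by
    funext c
    rw [Fintype.sum_sum_type, Fintype.sum_sum_type]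
    simpa [hl2, sub_eq_add_neg] using e2 c
  have hst : Stress p (TG m).edgeSet (fun i j => l1 i * l2 j - l2 i * l1 j) := by
    refine ⟨fun i j => by ring, ?_, ?_⟩
    · intro i j hij
      rw [mem_TG, not_not] at hij
      rcases i with i | i | i <;> rcases j with j | j | j <;>
        simp [part] at hij <;> simp only [hl1, hl2] <;> ring
    · intro i
      have : ∑ j, (l1 i * l2 j - l2 i * l1 j) • p j
          = l1 i • ∑ j, l2 j • p j - l2 i • ∑ j, l1 j • p j := by
        rw [Finset.smul_sum, Finset.smul_sum, ← Finset.sum_sub_distrib]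
        refine Finset.sum_congr rfl fun j _ => ?_
        rw [sub_smul, smul_smul, smul_smul]
      rw [this, s1, s2]
      simp
  have hz := hind _ hst
  have z12 : ∀ i j, a (.inl i) = 0 ∨ a (.inr (.inl j)) = 0 := by
    intro i j
    have := hz (.inl i) (.inr (.inl j))
    simp only [hl1, hl2, mul_zero, zero_sub, neg_eq_zero] at this
    exact mul_eq_zero.1 this
  have z13 : ∀ i k, a (.inl i) = 0 ∨ a (.inr (.inr k)) = 0 := by
    intro i k
    have := hz (.inl i) (.inr (.inr k))
    simp only [hl1, hl2, zero_mul, zero_sub, neg_eq_zero] at this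
    exact mul_eq_zero.1 this
  have z23 : ∀ j k, a (.inr (.inl j)) = 0 ∨ a (.inr (.inr k)) = 0 := by
    intro j k
    have := hz (.inr (.inl j)) (.inr (.inr k))
    simp only [hl1, hl2, zero_mul, sub_zero, mul_neg, neg_eq_zero] at this
    exact mul_eq_zero.1 this
  -- the three parts consist of independent vectors
  have L1 : LinearIndependent ℝ (p ∘ (fun i => (.inl i : TV m))) :=
    hp.linInd (⟨fun i => (.inl i : TV m), Sum.inl_injective⟩ : TJ m ↪ TV m)
      (Function.Embedding.refl _)
  have h35 : 3 ≤ 5 := by norm_num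
  have L2 : LinearIndependent ℝ (p ∘ (fun j => (.inr (.inl j) : TV m))) :=
    hp.linInd (⟨fun j => (.inr (.inl j) : TV m), Sum.inr_injective.comp Sum.inl_injective⟩ :
      Fin 3 ↪ TV m) ⟨fun j : Fin 3 => (.inl (Fin.castLE h35 j) : TJ m),
        Sum.inl_injective.comp (Fin.castLE_injective h35)⟩
  have L3 : LinearIndependent ℝ (p ∘ (fun k => (.inr (.inr k) : TV m))) :=
    hp.linInd (⟨fun k => (.inr (.inr k) : TV m), Sum.inr_injective.comp Sum.inr_injective⟩ :
      (Fin 3 ⊕ Fin m) ↪ TV m) ⟨Sum.map (Fin.castLE h35) id,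
        Sum.map_injective.2 ⟨Fin.castLE_injective h35, Function.injective_id⟩⟩
  rw [Fintype.linearIndependent_iff] at L1 L2 L3
  rcases w with i | j | k
  · have h2 : ∀ j, a (.inr (.inl j)) = 0 := fun j => (z12 i j).resolve_left ha0
    have h3 : ∀ k, a (.inr (.inr k)) = 0 := fun k => (z13 i k).resolve_left ha0
    apply ha0
    apply L1 (fun i => a (.inl i))
    funext c
    simpa [h3] using e2 c
  · have h2 : ∀ i, a (.inl i) = 0 := fun i => (z12 i j).resolve_right ha0
    have h3 : ∀ k, a (.inr (.inr k)) = 0 := fun k => (z23 j k).resolve_left ha0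
    apply ha0
    apply L2 (fun j => a (.inr (.inl j)))
    funext c
    simpa [h3] using e1 c
  · have h2 : ∀ i, a (.inl i) = 0 := fun i => (z13 i k).resolve_right ha0
    have h3 : ∀ j, a (.inr (.inl j)) = 0 := fun j => (z23 j k).resolve_right ha0
    apply ha0
    apply L3 (fun k => a (.inr (.inr k)))
    funext c
    simpa [h3] using e1 c

end Pool.Agent.HypC
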